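import Pool.Agent.Lib.MP_263316_co.HOOK.Def

/-!
MP_263316_co, project HOOK: alphabets with one nonzero elementary symmetric function, and the
evaluation of the products over the parts of a partition.
-/

set_option autoImplicit false

namespace Pool.Agent.HOOK

open Finset Pool.Agent.SWC

private theorem exists_fn (s : Multiset ℂ) : ∀ N : ℕ, Multiset.card s = N →
    ∃ f : Fin N → ℂ, (univ : Finset (Fin N)).val.map f = s := by
  induction s using Quotient.inductionOn with
  | h l =>
    intro N hN
    subst hN
    refine ⟨(l.get : Fin l.length → ℂ), ?_⟩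
    have h := Fin.univ_val_map (l.get : Fin l.length → ℂ)
    rw [List.ofFn_get] at h
    exact h

/-- an alphabet with `e_m = -1` and all other elementary symmetric functions zero -/
theorem exists_alph (N m : ℕ) (hm : 1 ≤ m) (hmN : m ≤ N) :
    ∃ x : Fin N → ℂ, ∀ d, es x d = if d = 0 then 1 else if d = m then -1 else 0 := by
  set p : Polynomial ℂ := Polynomial.X ^ N - Polynomial.X ^ (N - m) with hp
  have hlt : (Polynomial.X ^ (N - m) : Polynomial ℂ).degree <
      (Polynomial.X ^ N : Polynomial ℂ).degree := by
    rw [Polynomial.degree_X_pow, Polynomial.degree_X_pow]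
    exact_mod_cast (by omega : N - m < N)
  have hmon : p.Monic := (Polynomial.monic_X_pow N).sub_of_left hlt
  have hdeg : p.natDegree = N := by
    rw [hp, Polynomial.natDegree_sub_eq_left_of_natDegree_lt, Polynomial.natDegree_X_pow]
    rw [Polynomial.natDegree_X_pow, Polynomial.natDegree_X_pow]
    omega
  have hprod := (IsAlgClosed.splits p).eq_prod_roots_of_monic hmon
  have hcard : Multiset.card p.roots = N := IsAlgClosed.card_roots_eq_natDegree.trans hdeg
  obtain ⟨f, hf⟩ := exists_fn p.roots N hcard
  refine ⟨fun i => - f i, fun d => ?_⟩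
  have h1 : (∏ i : Fin N, (Polynomial.X + Polynomial.C (- f i))) = p := by
    rw [hprod, ← hf, Multiset.map_map]
    refine congrArg Multiset.prod (Multiset.map_congr rfl fun i _ => ?_)
    rw [map_neg, Function.comp_apply, sub_eq_add_neg]
  by_cases hd : d ≤ N
  · have h2 := Finset.prod_X_add_C_coeff (univ : Finset (Fin N)) (fun i => - f i)
      (k := N - d) (by rw [Finset.card_univ, Fintype.card_fin]; omega)
    rw [h1, Finset.card_univ, Fintype.card_fin, show N - (N - d) = d by omega] at h2
    have h3 : es (fun i => - f i) d = p.coeff (N - d) := h2.symm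
    rw [h3, hp, Polynomial.coeff_sub, Polynomial.coeff_X_pow, Polynomial.coeff_X_pow]
    by_cases h0 : d = 0
    · subst h0
      rw [if_pos (by omega), if_neg (by omega), if_pos rfl, sub_zero]
    · rw [if_neg (by omega), if_neg h0]
      by_cases h4 : d = m
      · rw [if_pos (by omega), if_pos h4, zero_sub]
      · rw [if_neg (by omega), if_neg h4, sub_zero]
  · have h2 : es (fun i => - f i) d = 0 := by
      unfold es
      rw [Finset.powersetCard_eq_empty.mpr (by rw [Finset.card_univ, Fintype.card_fin]; omega),
        Finset.sum_empty]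
    rw [h2, if_neg (by omega), if_neg (by omega)]

/-- the alphabet `0` -/
theorem es_nil (N : ℕ) (d : ℕ) : es (fun _ : Fin N => (0 : ℂ)) d = if d = 0 then 1 else 0 := by
  unfold es
  by_cases h : d = 0
  · subst h; simp
  · rw [if_neg h]
    refine Finset.sum_eq_zero fun C hC => ?_
    have hc := (Finset.mem_powersetCard.mp hC).2
    have hne : C.Nonempty := Finset.card_pos.mp (by omega)
    obtain ⟨k, hk⟩ := hne
    exact Finset.prod_eq_zero hk rfl

/-- products over the parts: `F 1 = y`, `F m = z`, `F (m+1) = y z`, otherwise `0` -/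
theorem parts_prod (m : ℕ) (hm : 2 ≤ m) (z : ℂ) (F : ℕ → Polynomial ℂ)
    (h1 : F 1 = Polynomial.X) (h2 : F m = Polynomial.C z)
    (h3 : F (m + 1) = Polynomial.C z * Polynomial.X)
    (h4 : ∀ d, 0 < d → d ≠ 1 → d ≠ m → d ≠ m + 1 → F d = 0) (l : Multiset ℕ)
    (hl : ∀ d ∈ l, 0 < d) : (l.map F).prod = 0 ∨ ∃ a b c : ℕ,
      l = Multiset.replicate a 1 + (Multiset.replicate b m + Multiset.replicate c (m + 1)) ∧
      (l.map F).prod = Polynomial.C (z ^ (b + c)) * Polynomial.X ^ (a + c) := by
  induction l using Multiset.induction_on with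
  | empty => exact Or.inr ⟨0, 0, 0, by simp, by simp⟩
  | cons d l ih =>
    rcases ih (fun e he => hl e (Multiset.mem_cons_of_mem he)) with h0 | ⟨a, b, c, hl', hp⟩
    · left
      rw [Multiset.map_cons, Multiset.prod_cons, h0, mul_zero]
    · rw [Multiset.map_cons, Multiset.prod_cons, hp]
      by_cases d1 : d = 1
      · subst d1
        right
        refine ⟨a + 1, b, c, ?_, ?_⟩
        · rw [hl', Multiset.replicate_succ, Multiset.cons_add]
        · rw [h1]; ring
      · by_cases dm : d = m
        · subst dm
          right
          refine ⟨a, b + 1, c, ?_, ?_⟩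
          · rw [hl', Multiset.replicate_succ, Multiset.cons_add, Multiset.add_cons]
          · rw [h2, map_pow, map_pow]; ring
        · by_cases dm1 : d = m + 1
          · subst dm1
            right
            refine ⟨a, b, c + 1, ?_, ?_⟩
            · rw [hl', Multiset.replicate_succ, Multiset.add_cons, Multiset.add_cons]
            · rw [h3, map_pow, map_pow]; ring
          · left
            rw [h4 d (hl d (Multiset.mem_cons_self d l)) d1 dm dm1, zero_mul]

/-- the partition `(m, 1^(n-m))` -/
def hookP (n m : ℕ) (h1 : 1 ≤ m) (h2 : m ≤ n) : n.Partition where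
  parts := m ::ₘ Multiset.replicate (n - m) 1
  parts_pos := by
    intro i hi
    rw [Multiset.mem_cons] at hi
    rcases hi with rfl | hi
    · omega
    · rw [Multiset.eq_of_mem_replicate hi]
      exact one_pos
  parts_sum := by
    rw [Multiset.sum_cons, Multiset.sum_replicate, smul_eq_mul, mul_one]
    omega

/-- hook extraction, `k ≥ 1` -/
theorem hook_sum (n m k : ℕ) (hm : 2 ≤ m) (hk : 1 ≤ k) (hn : n = m + k) (z : ℂ)
    (F : ℕ → Polynomial ℂ)
    (h1 : F 1 = Polynomial.X) (h2 : F m = Polynomial.C z)
    (h3 : F (m + 1) = Polynomial.C z * Polynomial.X)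
    (h4 : ∀ d, 0 < d → d ≠ 1 → d ≠ m → d ≠ m + 1 → F d = 0) (a : n.Partition → ℂ) :
    (∑ μ : n.Partition, Polynomial.C (a μ) * (μ.parts.map F).prod).coeff k =
      (a (hookP n m (by omega) (by omega)) + a (hookP n (m + 1) (by omega) (by omega))) * z := by
  classical
  rw [Polynomial.finsetSum_coeff, Finset.sum_eq_add (hookP n m (by omega) (by omega))
    (hookP n (m + 1) (by omega) (by omega))]
  · have e1 : ((hookP n m (by omega) (by omega)).parts.map F).prod =
        Polynomial.C z * Polynomial.X ^ k := by
      change ((m ::ₘ Multiset.replicate (n - m) 1).map F).prod = _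
      rw [Multiset.map_cons, Multiset.prod_cons, Multiset.map_replicate, Multiset.prod_replicate,
        h1, h2, show n - m = k by omega]
    have e2 : ((hookP n (m + 1) (by omega) (by omega)).parts.map F).prod =
        Polynomial.C z * Polynomial.X ^ k := by
      change (((m + 1) ::ₘ Multiset.replicate (n - (m + 1)) 1).map F).prod = _
      rw [Multiset.map_cons, Multiset.prod_cons, Multiset.map_replicate, Multiset.prod_replicate,
        h1, h3, show n - (m + 1) = k - 1 by omega, mul_assoc, ← pow_succ',
        show k - 1 + 1 = k by omega]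
    have e3 : (Polynomial.C z * Polynomial.X ^ k).coeff k = z := by
      rw [Polynomial.coeff_C_mul, Polynomial.coeff_X_pow, if_pos rfl, mul_one]
    have e4 : ∀ c : ℂ, (Polynomial.C c * (Polynomial.C z * Polynomial.X ^ k)).coeff k = c * z :=
      fun c => by rw [Polynomial.coeff_C_mul, e3]
    rw [e1, e2, e4, e4, add_mul]
  · intro h
    have h' := congrArg (fun μ : n.Partition => Multiset.count m μ.parts) h
    change Multiset.count m (m ::ₘ Multiset.replicate (n - m) 1) =
      Multiset.count m ((m + 1) ::ₘ Multiset.replicate (n - (m + 1)) 1) at h'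
    rw [Multiset.count_cons_self, Multiset.count_cons_of_ne (by omega), Multiset.count_replicate,
      Multiset.count_replicate, if_neg (by omega), if_neg (by omega)] at h'
    omega
  · intro μ _ hμ
    rcases parts_prod m hm z F h1 h2 h3 h4 μ.parts (fun d hd => μ.parts_pos hd) with h0 | h0
    · rw [h0, mul_zero, Polynomial.coeff_zero]
    · obtain ⟨x, b, c, hl, hp⟩ := h0
      rw [hp, Polynomial.coeff_C_mul, Polynomial.coeff_C_mul, Polynomial.coeff_X_pow]
      by_cases hkx : k = x + c
      · exfalso
        have hs := μ.parts_sum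
        rw [hl, Multiset.sum_add, Multiset.sum_add, Multiset.sum_replicate,
          Multiset.sum_replicate, Multiset.sum_replicate, smul_eq_mul, smul_eq_mul, smul_eq_mul,
          mul_one] at hs
        have h5 : (b + c) * m = 1 * m := by
          have : b * m + c * m = m := by
            have h6 : c * (m + 1) = c * m + c := by ring
            omega
          rw [add_mul, one_mul]
          exact this
        have h6 : b + c = 1 := Nat.eq_of_mul_eq_mul_right (by omega) h5
        rcases Nat.eq_zero_or_pos c with hc | hc
        · apply hμ.1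
          ext1
          rw [hl]
          change _ = m ::ₘ Multiset.replicate (n - m) 1
          have hb : b = 1 := by omega
          rw [hc, hb, Multiset.replicate_zero, Multiset.replicate_one, add_zero,
            show n - m = x by omega, add_comm, Multiset.singleton_add]
        · apply hμ.2
          ext1
          rw [hl]
          change _ = (m + 1) ::ₘ Multiset.replicate (n - (m + 1)) 1
          have hb : b = 0 := by omega
          have hc' : c = 1 := by omega
          rw [hc', hb, Multiset.replicate_zero, Multiset.replicate_one, zero_add,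
            show n - (m + 1) = x by omega, add_comm, Multiset.singleton_add]
      · rw [if_neg hkx, mul_zero, mul_zero]
  · intro h; exact absurd (Finset.mem_univ _) h
  · intro h; exact absurd (Finset.mem_univ _) h

/-- extraction of the part `(n)` -/
theorem full_sum (n : ℕ) (hn : 1 ≤ n) (z : ℂ) (F : ℕ → ℂ) (h2 : F n = z)
    (h4 : ∀ d, 0 < d → d < n → F d = 0) (a : n.Partition → ℂ) :
    (∑ μ : n.Partition, a μ * (μ.parts.map F).prod) = a (hookP n n hn le_rfl) * z := by
  classical
  rw [Finset.sum_eq_single (hookP n n hn le_rfl)]
  · have e1 : ((hookP n n hn le_rfl).parts.map F).prod = z := by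
      change ((n ::ₘ Multiset.replicate (n - n) 1).map F).prod = _
      rw [Nat.sub_self, Multiset.replicate_zero, Multiset.map_cons, Multiset.prod_cons, h2,
        Multiset.map_zero, Multiset.prod_zero, mul_one]
    rw [e1]
  · intro μ _ hμ
    have h5 : ∃ d ∈ μ.parts, d < n := by
      by_contra hcon
      push Not at hcon
      apply hμ
      have hs := μ.parts_sum
      have hne : μ.parts ≠ 0 := by
        intro h0
        rw [h0, Multiset.sum_zero] at hs
        omega
      obtain ⟨d, hd⟩ := Multiset.exists_mem_of_ne_zero hne
      obtain ⟨t, ht⟩ := Multiset.exists_cons_of_mem hd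
      have hdn := hcon d hd
      rw [ht, Multiset.sum_cons] at hs
      have hd' : d = n := by omega
      have ht0 : t = 0 := by
        by_contra h0
        obtain ⟨e, he⟩ := Multiset.exists_mem_of_ne_zero h0
        have h7 := hcon e (by rw [ht]; exact Multiset.mem_cons_of_mem he)
        have h8 := Multiset.le_sum_of_mem he
        omega
      ext1
      rw [ht, ht0, hd']
      change n ::ₘ 0 = n ::ₘ Multiset.replicate (n - n) 1
      rw [Nat.sub_self, Multiset.replicate_zero]
    obtain ⟨d, hd, hdn⟩ := h5
    have h6 : (μ.parts.map F).prod = 0 := by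
      apply Multiset.prod_eq_zero
      rw [Multiset.mem_map]
      exact ⟨d, hd, h4 d (μ.parts_pos hd) hdn⟩
    rw [h6, mul_zero]
  · intro h; exact absurd (Finset.mem_univ _) h

/-- extraction of `1^n` -/
theorem ones_sum (n : ℕ) (hn : 1 ≤ n) (F : ℕ → Polynomial ℂ) (h1 : F 1 = Polynomial.X)
    (h4 : ∀ d, 1 < d → F d = 0) (a : n.Partition → ℂ) :
    (∑ μ : n.Partition, Polynomial.C (a μ) * (μ.parts.map F).prod).coeff n =
      a (hookP n 1 le_rfl hn) := by
  classical
  rw [Finset.sum_eq_single (hookP n 1 le_rfl hn)]
  · have e1 : ((hookP n 1 le_rfl hn).parts.map F).prod = Polynomial.X ^ n := by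
      change ((1 ::ₘ Multiset.replicate (n - 1) 1).map F).prod = _
      rw [Multiset.map_cons, Multiset.prod_cons, Multiset.map_replicate, Multiset.prod_replicate,
        h1, ← pow_succ', show n - 1 + 1 = n by omega]
    rw [e1, Polynomial.coeff_C_mul, Polynomial.coeff_X_pow, if_pos rfl, mul_one]
  · intro μ _ hμ
    have h5 : ∃ d ∈ μ.parts, 1 < d := by
      by_contra hcon
      push Not at hcon
      apply hμ
      have hs := μ.parts_sum
      have hrep : μ.parts = Multiset.replicate (Multiset.card μ.parts) 1 := by
        rw [Multiset.eq_replicate]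
        refine ⟨rfl, fun d hd => ?_⟩
        have := hcon d hd
        have := μ.parts_pos hd
        omega
      rw [hrep, Multiset.sum_replicate, smul_eq_mul, mul_one] at hs
      ext1
      rw [hrep, hs]
      change _ = 1 ::ₘ Multiset.replicate (n - 1) 1
      rw [← Multiset.replicate_succ, show n - 1 + 1 = n by omega]
    obtain ⟨d, hd, hdn⟩ := h5
    have h6 : (μ.parts.map F).prod = 0 := by
      apply Multiset.prod_eq_zero
      rw [Multiset.mem_map]
      exact ⟨d, hd, h4 d hdn⟩
    rw [h6, mul_zero]
  · intro h; exact absurd (Finset.mem_univ _) h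

end Pool.Agent.HOOK
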