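import Pool.Agent.Lib.MP_263316_co.PUmul
import Pool.Agent.Lib.MP_263316_co.PUcoeff
import Pool.Agent.Lib.MP_263316_co.CS
import Pool.Agent.Lib.MP_263316_co.FUN
import Pool.Agent.Lib.MP_263316_co.SWK.LREC
import Pool.Agent.Lib.MP_263316_co.SWK.LOC
import Pool.Agent.Lib.MP_263316_co.SWK.LOCF
import Pool.Agent.Lib.MP_263316_co.SWK.SPL
import Pool.Agent.Lib.MP_263316_co.SWK.ESZ
import Pool.Agent.Lib.MP_263316_co.SWK.EXC
import Pool.Agent.Lib.MP_263316_co.SWK.RM1
import Pool.Agent.Lib.MP_263316_co.SWK.RM2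
import Pool.Agent.Lib.MP_263316_co.SWK.RM3
import Pool.Agent.Lib.MP_263316_co.SWK.RM
import Pool.Agent.Lib.MP_263316_co.SWK.RR
import Pool.Agent.Lib.MP_263316_co.SWK.WT
import Pool.Agent.Lib.MP_263316_co.SWK.RRS
import Pool.Agent.Lib.MP_263316_co.SWK.KB
import Pool.Agent.Lib.MP_263316_co.SWK.KREC
import Pool.Agent.Lib.MP_263316_co.SWK.KU
import Pool.Agent.Lib.MP_263316_co.SWK.KUC
import Pool.Agent.Lib.MP_263316_co.SWK.RX
import Pool.Agent.Lib.MP_263316_co.SWK.XF
import Pool.Agent.Lib.MP_263316_co.SWK.RELm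
import Pool.Agent.Lib.MP_263316_co.SWK.RELX
import Pool.Agent.Lib.MP_263316_co.HOOK.UNI

/-!
MP_263316_co, project HOOK: assembly. All hook coefficients of the chromatic quasisymmetric
functions of all natural unit interval graphs are nonnegative, palindromic and unimodal.

PROOF. (1) For an independent set of colours: evaluate `X_G` at the alphabet `y` and the `m`-th
roots of unity: the hook coefficients `H_k` (of `e_(n-k) e_1^k`) satisfy `H_k + H_(k-1) = [n-k] s_k`
(`hook_rel`), where `s_k` is the sum over the stable sets `T` with `k` elements of `q` to the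
number of edges from `T` to the right times the product of the q-integers of the left degrees in
`G - T` over all vertices of `G - T` but the first. (2) The generating function `s(b)` of the
initial segment with `b` vertices satisfies a recursion (`s_rec`): `l` the left degree of the
vertex `b`, `p = b - l`: `s(b+1) = [l] s(b) + y q^l (product of [l_j - 1], p ≤ j < b) s(p)`.
(3) `s(b) = (1 + y)(1 + q y) u(b) + rho(b) ([b-1] + [b] y)`, and `u` has a positive recursion
(`structure_u`). (4) `H_k = [n-k] u_k + q [n-k-1] u_(k-1)` (`pos_conn`).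
-/

set_option autoImplicit false

namespace Pool.Agent.HOOK

open Pool.Agent.SWC Pool.Agent.SWK

namespace All

theorem pumul : S_PUmul := t_PUmul
theorem spl : S_SPL := tSPL t_CS
theorem locf : S_LOCF := tLOCF (tLOC tLREC)
theorem rm : RMc := tRM locf tRM1 tRM2 tRM3 spl tESZ tEXC
theorem rr : RRc := tRR rm tEXC
theorem ku : KUc := tKUC tKB tKREC tKU
theorem xf : XFc := tXF spl tESZ tWT tRRS rr ku tRX

theorem final : ∀ (n : ℕ) (h : Fin n → Fin n), Monotone h → (∀ i, i ≤ h i) →
    ∀ E : ℕ, E = (Finset.univ.filter (fun p : Fin n × Fin n => p.1 < p.2 ∧ p.2 ≤ h p.1)).card →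
    ∃ a : Nat.Partition n → Polynomial ℤ,
      ((∑ κ ∈ (Finset.univ.filter
            (fun κ : Fin n → Fin n => ∀ i j : Fin n, i < j → j ≤ h i → κ i ≠ κ j)),
          MvPolynomial.C (Polynomial.X ^ ((Finset.univ.filter
            (fun p : Fin n × Fin n => p.1 < p.2 ∧ p.2 ≤ h p.1 ∧ κ p.1 < κ p.2)).card))
            * ∏ i : Fin n, MvPolynomial.X (κ i) : MvPolynomial (Fin n) (Polynomial ℤ))
        = ∑ μ : Nat.Partition n, MvPolynomial.C (a μ) *
            (μ.parts.map (fun k => MvPolynomial.esymm (Fin n) (Polynomial ℤ) k)).prod)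
      ∧ ∀ μ : Nat.Partition n, Multiset.card (μ.parts.filter (fun p => 2 ≤ p)) ≤ 1 →
          (∀ i : ℕ, 0 ≤ (a μ).coeff i)
          ∧ (∀ i : ℕ, E < i → (a μ).coeff i = 0)
          ∧ (∀ i : ℕ, i ≤ E → (a μ).coeff i = (a μ).coeff (E - i))
          ∧ (∀ i j : ℕ, i ≤ j → 2 * j ≤ E → (a μ).coeff i ≤ (a μ).coeff j) :=
  hookFinal pumul xf spl tESZ tRELm tRELX t_PUcoeff t_FUN

end All

end Pool.Agent.HOOK
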