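import Pool.Agent.Lib.MP_263316_co.HOOK.Def

/-!
MP_263316_co, project HOOK: symmetric homogeneous polynomials are sums over partitions.
-/

set_option autoImplicit false

namespace Pool.Agent.HOOK

open Finset Pool.Agent.SWC

private theorem es_zero' {R : Type} [CommRing R] {N : ℕ} (x : Fin N → R) : es x 0 = 1 := by
  simp [es]

private theorem filter_prod' {A : Type} [CommMonoid A] (g : ℕ → A) (h : g 0 = 1)
    (l : Multiset ℕ) : ((l.filter (fun k => k ≠ 0)).map g).prod = (l.map g).prod := by
  induction l using Multiset.induction_on with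
  | empty => rfl
  | cons a l ih =>
    rcases Nat.eq_zero_or_pos a with rfl | ha
    · rw [Multiset.filter_cons_of_neg _ (by simp), Multiset.map_cons, Multiset.prod_cons, h,
        one_mul, ih]
    · rw [Multiset.filter_cons_of_pos _ (by omega), Multiset.map_cons, Multiset.map_cons,
        Multiset.prod_cons, Multiset.prod_cons, ih]

private def Tt (N n : ℕ) (f : AN N) : Prop := ∃ a : n.Partition → Polynomial ℤ,
  f = ∑ μ : n.Partition, MvPolynomial.C (a μ) * (μ.parts.map (es (xx N))).prod

private theorem Tt_zero (N n : ℕ) : Tt N n 0 := ⟨0, by simp⟩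

private theorem Tt_add (N n : ℕ) (f g : AN N) (hf : Tt N n f) (hg : Tt N n g) :
    Tt N n (f + g) := by
  obtain ⟨a, ha⟩ := hf
  obtain ⟨b, hb⟩ := hg
  refine ⟨a + b, ?_⟩
  rw [ha, hb, ← Finset.sum_add_distrib]
  refine Finset.sum_congr rfl fun μ _ => ?_
  rw [Pi.add_apply, map_add, add_mul]

private theorem Tt_gen (N n : ℕ) (l : Multiset ℕ) (p : Polynomial ℤ) (hl : l.sum = n) :
    Tt N n (MvPolynomial.C p * (l.map (es (xx N))).prod) := by
  classical
  refine ⟨Pi.single (Nat.Partition.ofSums n l hl) p, ?_⟩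
  rw [Finset.sum_eq_single (Nat.Partition.ofSums n l hl)]
  · rw [Pi.single_eq_same]
    congr 1
    exact (filter_prod' (es (xx N)) (es_zero' (xx N)) l).symm
  · intro μ _ hμ
    rw [Pi.single_eq_of_ne hμ, map_zero, zero_mul]
  · intro h
    exact absurd (Finset.mem_univ _) h

theorem es_hom (N d : ℕ) : (es (xx N) d).IsHomogeneous d := by
  unfold es
  refine MvPolynomial.IsHomogeneous.sum _ _ _ fun C hC => ?_
  have h := MvPolynomial.IsHomogeneous.prod C (fun k => xx N k) (fun _ => 1)
    (fun k _ => MvPolynomial.isHomogeneous_X (Polynomial ℤ) k)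
  rw [Finset.sum_const, smul_eq_mul, mul_one, (Finset.mem_powersetCard.mp hC).2] at h
  exact h

theorem prod_hom (N : ℕ) (l : Multiset ℕ) :
    ((l.map (es (xx N))).prod).IsHomogeneous l.sum := by
  induction l using Multiset.induction_on with
  | empty => simpa using MvPolynomial.isHomogeneous_one (Fin N) (Polynomial ℤ)
  | cons a l ih =>
    rw [Multiset.map_cons, Multiset.prod_cons, Multiset.sum_cons]
    exact (es_hom N a).mul ih

private theorem exists_l (N : ℕ) (s : Fin N →₀ ℕ) : ∃ l : Multiset ℕ,
    (s.prod fun i k => es (xx N) ((i : ℕ) + 1) ^ k) = (l.map (es (xx N))).prod := by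
  induction s using Finsupp.induction_linear with
  | zero => exact ⟨0, by simp⟩
  | add s t hs ht =>
    obtain ⟨l, hl⟩ := hs
    obtain ⟨l', hl'⟩ := ht
    refine ⟨l + l', ?_⟩
    rw [Finsupp.prod_add_index' (fun _ => pow_zero _) (fun _ _ _ => pow_add _ _ _), hl, hl',
      Multiset.map_add, Multiset.prod_add]
  | single i k =>
    refine ⟨Multiset.replicate k ((i : ℕ) + 1), ?_⟩
    rw [Finsupp.prod_single_index
      (h := fun (i : Fin N) (k : ℕ) => es (xx N) ((i : ℕ) + 1) ^ k) (pow_zero _),
      Multiset.map_replicate, Multiset.prod_replicate]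

theorem exists_exp (N n : ℕ) (f : AN N) (hs : f.IsSymmetric) (hh : f.IsHomogeneous n) :
    ∃ a : n.Partition → Polynomial ℤ,
      f = ∑ μ : n.Partition, MvPolynomial.C (a μ) * (μ.parts.map (es (xx N))).prod := by
  obtain ⟨P, hP⟩ := MvPolynomial.esymmAlgHom_fin_surjective (Polynomial ℤ) (le_refl N) ⟨f, hs⟩
  have h1 : f = MvPolynomial.aeval (fun i : Fin N => es (xx N) ((i : ℕ) + 1)) P := by
    have h2 := MvPolynomial.esymmAlgHom_apply (σ := Fin N) (R := Polynomial ℤ) P
    rw [hP] at h2
    exact h2
  have h3 : MvPolynomial.homogeneousComponent n f = f := by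
    rw [MvPolynomial.homogeneousComponent_of_mem
      ((MvPolynomial.mem_homogeneousSubmodule n f).mpr hh), if_pos rfl]
  change Tt N n f
  rw [← h3, h1, P.as_sum, map_sum, map_sum]
  refine Finset.sum_induction _ (Tt N n) (fun a b => Tt_add N n a b) (Tt_zero N n) fun s _ => ?_
  rw [MvPolynomial.aeval_monomial]
  obtain ⟨l, hl⟩ := exists_l N s
  rw [hl]
  have h4 : (algebraMap (Polynomial ℤ) (AN N) (MvPolynomial.coeff s P) *
      (l.map (es (xx N))).prod).IsHomogeneous l.sum := by
    have := (MvPolynomial.isHomogeneous_C (Fin N) (MvPolynomial.coeff s P)).mul (prod_hom N l)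
    rw [zero_add] at this
    exact this
  rw [MvPolynomial.homogeneousComponent_of_mem
    ((MvPolynomial.mem_homogeneousSubmodule l.sum _).mpr h4)]
  split_ifs with h5
  · exact Tt_gen N n l _ h5.symm
  · exact Tt_zero N n

/-- homogeneity of the partition functions -/
theorem Z_hom (N : ℕ) (m : ℕ → ℕ) (U : Finset ℕ) : ∀ w : ℕ → Fin N → AN N,
    (∀ v k, (w v k).IsHomogeneous 1) → (Z m (qq N) U w).IsHomogeneous U.card := by
  induction U using Finset.induction_on with
  | empty =>
    intro w _
    rw [Z_empty, Finset.card_empty]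
    exact MvPolynomial.isHomogeneous_one (Fin N) (Polynomial ℤ)
  | insert v U hv ih =>
    intro w hw
    rw [Z_insert hv, Finset.card_insert_of_notMem hv, add_comm]
    refine MvPolynomial.IsHomogeneous.sum _ _ _ fun k _ => ?_
    refine (hw v k).mul (ih _ fun u k' => ?_)
    have h : (pw m (qq N) v k u k').IsHomogeneous 0 := by
      have hq : (qq N).IsHomogeneous 0 := MvPolynomial.isHomogeneous_C (Fin N) _
      have h1 : (1 : AN N).IsHomogeneous 0 := MvPolynomial.isHomogeneous_one (Fin N) _
      have h0 : (0 : AN N).IsHomogeneous 0 := MvPolynomial.isHomogeneous_zero (Fin N) _ 0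
      unfold pw
      split_ifs
      all_goals first | exact h0 | exact hq | exact h1
    have := (hw u k').mul h
    rwa [add_zero] at this

theorem XX_hom (N : ℕ) (m : ℕ → ℕ) (U : Finset ℕ) :
    (XX m (qq N) (xx N) U).IsHomogeneous U.card :=
  Z_hom N m U _ fun _ k => MvPolynomial.isHomogeneous_X (Polynomial ℤ) k

end Pool.Agent.HOOK
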