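import Pool.Agent.Lib.MP_263316_co.HOOK.POS
import Pool.Agent.Lib.MP_263316_co.HOOK.EX

/-!
MP_263316_co, project HOOK: the hook coefficients of a connected graph.
-/

set_option autoImplicit false

namespace Pool.Agent.HOOK

open Finset Pool.Agent.SWC Pool.Agent.SWK

theorem eE_Ez (g : ℕ → ℕ) (n : ℕ) : (eE g (range n) : ℤ) = Ez g n := by
  unfold eE Ez
  rw [Nat.cast_sum]
  refine Finset.sum_congr rfl fun j hj => ?_
  unfold ld aL
  congr 2
  ext u
  simp only [Finset.mem_filter, Finset.mem_range] at hj ⊢
  constructor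
  · rintro ⟨_, h2, h3⟩
    exact ⟨h2, h2, h3⟩
  · rintro ⟨_, h2, h3⟩
    exact ⟨by omega, h2, h3⟩

/-- coefficients of the generating function in terms of `u` -/
private theorem coeffs (u : Polynomial (Polynomial ℤ)) (r a b : Polynomial ℤ)
    (s : Polynomial (Polynomial ℤ))
    (hs : s = (1 + Polynomial.X) * (1 + Polynomial.C Polynomial.X * Polynomial.X) * u +
      Polynomial.C r * (Polynomial.C a + Polynomial.C b * Polynomial.X)) :
    s.coeff 0 = u.coeff 0 + r * a ∧
    s.coeff 1 = u.coeff 1 + (1 + Polynomial.X) * u.coeff 0 + r * b ∧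
    ∀ k, s.coeff (k + 2) = u.coeff (k + 2) + (1 + Polynomial.X) * u.coeff (k + 1) +
      Polynomial.X * u.coeff k := by
  have h1 : s = u + Polynomial.C (1 + Polynomial.X) * (Polynomial.X * u) +
      Polynomial.C Polynomial.X * (Polynomial.X * (Polynomial.X * u)) +
      Polynomial.C (r * a) + Polynomial.C (r * b) * Polynomial.X := by
    rw [hs]
    simp only [map_mul, map_add, map_one]
    ring
  refine ⟨?_, ?_, fun k => ?_⟩
  · rw [h1]
    simp only [Polynomial.coeff_add, Polynomial.coeff_C_mul, Polynomial.coeff_X_mul_zero,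
      Polynomial.coeff_C_zero, Polynomial.coeff_X_zero, mul_zero, add_zero]
  · rw [h1]
    simp only [Polynomial.coeff_add, Polynomial.coeff_C_mul, Polynomial.coeff_X_mul,
      Polynomial.coeff_X_mul_zero, Polynomial.coeff_X_one, mul_zero, add_zero, mul_one]
    rw [show (1 : ℕ) = 0 + 1 from rfl, Polynomial.coeff_C_succ, add_zero]
  · rw [h1]
    simp only [Polynomial.coeff_add, Polynomial.coeff_C_mul]
    rw [show k + 2 = k + 1 + 1 from rfl, Polynomial.coeff_X_mul, Polynomial.coeff_X_mul,
      Polynomial.coeff_X_mul, Polynomial.coeff_C_succ, Polynomial.coeff_X]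
    rw [if_neg (by omega)]
    ring

theorem pos_conn (hmul : S_PUmul) {g : ℕ → ℕ} (hg : Monotone g) (n : ℕ) (hn : 2 ≤ n)
    (hc : ∀ j, 0 < j → j < n → j ≤ g (j - 1)) (H : ℕ → Polynomial ℤ)
    (h0 : H 0 = qn Polynomial.X n * sk g Polynomial.X (range n) 0)
    (h1 : ∀ k, 1 ≤ k → k + 2 ≤ n → H k + H (k - 1) =
      qn Polynomial.X (n - k) * sk g Polynomial.X (range n) k) :
    ∀ k, k + 2 ≤ n → H k ∈ PU (eE g (range n)) := by
  obtain ⟨u, hu, hud⟩ := structure_u hmul hg n hc n hn le_rfl
  obtain ⟨c0, c1, c2⟩ := coeffs u (rho g n) (qn Polynomial.X (n - 1)) (qn Polynomial.X n) _ hu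
  have hcard : (range n).card = n := Finset.card_range n
  have hsk : ∀ k, k < n → (sB g (Polynomial.C Polynomial.X)
      (Polynomial.X : Polynomial (Polynomial ℤ)) (range n) ∅).coeff k =
      sk g Polynomial.X (range n) k := fun k hk => coeff_sB g (range n) k (by omega)
  have hlpos : ∀ j, 1 ≤ j → j < n → 1 ≤ ld g j := fun j hj hjn =>
    (NL_range hg (by omega) (hc j (by omega) hjn)).2
  have hE2 : Ez g 2 = 1 := by
    unfold Ez
    have h0 : ld g 0 = 0 := Nat.le_zero.mp (ld_le g 0)
    have h1 : ld g 1 = 1 := le_antisymm (ld_le g 1) (hlpos 1 le_rfl (by omega))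
    rw [Finset.sum_range_succ, Finset.sum_range_succ, Finset.sum_range_zero, h0, h1]
    norm_num
  have hrho : PUz (Ez g n - 1 - 2 * ((n : ℤ) - 2)) (rho g n) := by
    have := deg_prod hmul (g := g) 2 n hn (fun j hj hj' => hlpos j (by omega) (by omega))
    rw [hE2] at this
    exact this
  have hstep : ∀ p, (1 + Polynomial.X) * qn (Polynomial.X : Polynomial ℤ) (p + 1) =
      qn Polynomial.X (p + 2) + Polynomial.X * qn Polynomial.X p := by
    intro p
    have := idP (Polynomial.X : Polynomial ℤ) p
    rw [this]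
    ring
  have key : ∀ k, 1 ≤ k → k + 2 ≤ n → H k = qn Polynomial.X (n - k) * u.coeff k +
      Polynomial.X * qn Polynomial.X (n - k - 1) * u.coeff (k - 1) := by
    intro k hk
    induction k, hk using Nat.le_induction with
    | base =>
      intro hkn
      have e := h1 1 le_rfl hkn
      rw [← hsk 1 (by omega), c1, Nat.sub_self, h0, ← hsk 0 (by omega), c0] at e
      obtain ⟨p, hp⟩ : ∃ p, n = p + 3 := ⟨n - 3, by omega⟩
      have h2 := hstep (p + 1)
      rw [hp] at e ⊢
      rw [show p + 3 - 1 = p + 2 by omega] at e ⊢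
      rw [show p + 2 - 1 = p + 1 by omega, Nat.sub_self]
      rw [show p + 1 + 1 = p + 2 by omega, show p + 1 + 2 = p + 3 by omega] at h2
      linear_combination e + (u.coeff 0) * h2
    | succ k hk ih =>
      intro hkn
      have e := h1 (k + 1) (by omega) hkn
      obtain ⟨j, hj⟩ : ∃ j, k = j + 1 := ⟨k - 1, by omega⟩
      rw [show k + 1 - 1 = k by omega, ih (by omega), ← hsk (k + 1) (by omega), hj, c2 j] at e
      obtain ⟨p, hp⟩ : ∃ p, n = p + j + 4 := ⟨n - j - 4, by omega⟩
      have h2 := hstep (p + 1)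
      rw [show n - (j + 1) - 1 = p + 2 by omega, show n - (j + 1) = p + 3 by omega,
        show n - (j + 1 + 1) = p + 2 by omega, show j + 1 - 1 = j by omega] at e
      rw [hj, show n - (j + 1 + 1) - 1 = p + 1 by omega, show n - (j + 1 + 1) = p + 2 by omega,
        show j + 1 + 1 - 1 = j + 1 by omega]
      rw [show p + 1 + 1 = p + 2 by omega, show p + 1 + 2 = p + 3 by omega] at h2
      rw [show j + 1 + 1 = j + 2 by omega] at e ⊢
      linear_combination e + (u.coeff (j + 1)) * h2
  intro k hk
  apply PUz.mem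
  rw [eE_Ez]
  rcases Nat.eq_zero_or_pos k with rfl | hk1
  · rw [h0, ← hsk 0 (by omega), c0, mul_add]
    refine PUz.add ?_ ?_
    · refine (PUz.mul hmul (PUz.qn n) (hud 0)).cast ?_
      push_cast
      ring
    · refine (PUz.mul hmul (PUz.qn n) (PUz.mul hmul hrho (PUz.qn (n - 1)))).cast ?_
      rw [Nat.cast_sub (by omega)]
      push_cast
      ring
  · rw [key k hk1 hk]
    refine PUz.add ?_ ?_
    · refine (PUz.mul hmul (PUz.qn (n - k)) (hud k)).cast ?_
      rw [Nat.cast_sub (by omega)]
      ring
    · have hX : PUz 2 (Polynomial.X : Polynomial ℤ) := by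
        have := PUz.pow 1
        simpa using this
      refine (PUz.mul hmul (PUz.mul hmul hX (PUz.qn (n - k - 1))) (hud (k - 1))).cast ?_
      rw [Nat.cast_sub (by omega : 1 ≤ n - k), Nat.cast_sub (by omega : k ≤ n),
        Nat.cast_sub hk1]
      push_cast
      ring

/-- a partition with at most one part larger than one is a hook -/
theorem big_le {n : ℕ} (μ : n.Partition) (hb : big μ.parts ≤ 1) (hn : 1 ≤ n) :
    ∃ (m : ℕ) (h1 : 1 ≤ m) (h2 : m ≤ n), μ = hookP n m h1 h2 := by
  have hsplit : μ.parts.filter (fun p => 2 ≤ p) + μ.parts.filter (fun p => ¬ 2 ≤ p) = μ.parts :=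
    Multiset.filter_add_not _ _
  have hone : μ.parts.filter (fun p => ¬ 2 ≤ p) =
      Multiset.replicate (Multiset.card (μ.parts.filter (fun p => ¬ 2 ≤ p))) 1 := by
    rw [Multiset.eq_replicate]
    refine ⟨rfl, fun d hd => ?_⟩
    rw [Multiset.mem_filter] at hd
    have := μ.parts_pos hd.1
    omega
  have hs := μ.parts_sum
  unfold big at hb
  rcases Nat.eq_zero_or_pos (Multiset.card (μ.parts.filter (fun p => 2 ≤ p))) with h0 | h0
  · rw [Multiset.card_eq_zero] at h0
    rw [h0, zero_add] at hsplit
    rw [hsplit] at hone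
    refine ⟨1, le_rfl, hn, ?_⟩
    ext1
    rw [hone, Multiset.sum_replicate, smul_eq_mul, mul_one] at hs
    rw [hone, hs]
    change _ = 1 ::ₘ Multiset.replicate (n - 1) 1
    rw [← Multiset.replicate_succ, show n - 1 + 1 = n by omega]
  · obtain ⟨m, hm⟩ := Multiset.card_eq_one.mp (le_antisymm hb h0)
    have hm2 : 2 ≤ m := by
      have : m ∈ μ.parts.filter (fun p => 2 ≤ p) := by rw [hm]; exact Multiset.mem_singleton_self m
      exact (Multiset.mem_filter.mp this).2
    rw [hm, hone] at hsplit
    set c := Multiset.card (μ.parts.filter (fun p => ¬ 2 ≤ p)) with hcdef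
    rw [← hsplit, Multiset.sum_add, Multiset.sum_singleton, Multiset.sum_replicate, smul_eq_mul,
      mul_one] at hs
    refine ⟨m, by omega, by omega, ?_⟩
    ext1
    change _ = m ::ₘ Multiset.replicate (n - m) 1
    rw [← hsplit, show n - m = c by omega, Multiset.singleton_add]

theorem one_mem_PU : (1 : Polynomial ℤ) ∈ PU 0 :=
  AddSubmonoid.subset_closure ⟨0, 1, by omega, by simp [qn]⟩

/-- connected graphs -/
theorem conn_HC (hmul : S_PUmul) (hXF : XFc) (hSPL : S_SPL) (hESZ : S_ESZ) {g : ℕ → ℕ}
    (hg : Monotone g) (n : ℕ) (hn : 1 ≤ n) (hc : ∀ j, 0 < j → j < n → j ≤ g (j - 1)) (N : ℕ)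
    (hN : n ≤ N) : XX g (qq N) (xx N) (range n) ∈ HC N n (eE g (range n)) := by
  have hcard : (range n).card = n := Finset.card_range n
  have hh := XX_hom N g (range n)
  rw [hcard] at hh
  obtain ⟨a, ha⟩ := exists_exp N n (XX g (qq N) (xx N) (range n)) (XX_symm hXF g hg N (range n)) hh
  obtain ⟨r1, r2, r3⟩ := hook_rel hXF hSPL hESZ g hg N n (range n) hcard hN a ha
  have hpos : ∀ (m : ℕ) (h1 : 1 ≤ m) (h2 : m ≤ n), a (hookP n m h1 h2) ∈ PU (eE g (range n)) := by
    intro m h1 h2
    rcases Nat.eq_or_lt_of_le hn with rfl | hn2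
    · have hm : m = 1 := by omega
      subst hm
      rw [r3 le_rfl, if_pos]
      · have : eE g (range 1) = 0 := by
          unfold eE aL
          simp
        rw [this]
        exact one_mem_PU
      · intro u hu v hv h
        rw [Finset.mem_range] at hu hv
        omega
    · rcases Nat.eq_or_lt_of_le h1 with rfl | hm2
      · rw [r3 hn, if_neg]
        · exact AddSubmonoid.zero_mem _
        · exact not_ind (hc 1 (by omega) (by omega)) (by omega)
      · have hH := pos_conn hmul hg n (by omega) hc
          (fun k => if h : k + 2 ≤ n then a (hookP n (n - k) (by omega) (by omega)) else 0)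
          (by
            have hsub : n - 0 = n := rfl
            rw [dif_pos (by omega)]
            exact r2 hn)
          (by
            intro k hk hkn
            rw [dif_pos hkn, dif_pos (by omega)]
            have h3 := r1 (n - k) k (by omega) hk (by omega)
            have h4 : hookP n (n - k + 1) (by omega) (by omega) =
                hookP n (n - (k - 1)) (by omega) (by omega) := by
              congr 1
              omega
            rw [h4] at h3
            exact h3)
          (n - m) (by omega)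
        rw [dif_pos (by omega)] at hH
        have h5 : hookP n (n - (n - m)) (by omega) (by omega) = hookP n m h1 h2 := by
          congr 1
          omega
        rwa [h5] at hH
  rw [ha]
  refine AddSubmonoid.sum_mem _ fun μ _ => AddSubmonoid.subset_closure
    ⟨μ.parts, a μ, μ.parts_sum, fun hb => ?_, rfl⟩
  obtain ⟨m, h1, h2, h3⟩ := big_le μ hb hn
  rw [h3]
  exact hpos m h1 h2

end Pool.Agent.HOOK
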