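import Pool.Agent.Lib.MP_263316_co.Spec

/-!
MP_263316_co, project HOOK (helper30): all hook coefficients of all natural unit interval graphs.
Definitions.
-/

set_option autoImplicit false

namespace Pool.Agent.HOOK

open Finset Pool.Agent.SWC

/-- number of parts larger than one -/
def big (l : Multiset ℕ) : ℕ := Multiset.card (l.filter (fun p => 2 ≤ p))

/-- sums of `p e_l`, `l` of weight `n`, with `p ∈ PU d` if `l` has at most one part larger than one -/
noncomputable def HC (N n d : ℕ) : AddSubmonoid (AN N) :=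
  AddSubmonoid.closure {f | ∃ (l : Multiset ℕ) (p : Polynomial ℤ), l.sum = n ∧
    (big l ≤ 1 → p ∈ PU d) ∧ f = MvPolynomial.C p * (l.map (es (xx N))).prod}

/-- product of the q-integers of the left degrees inside `V` over all vertices but the first -/
def Pm {R : Type} [CommRing R] (m : ℕ → ℕ) (q : R) (V : Finset ℕ) : R :=
  ∏ v ∈ V, if ∃ u ∈ V, u < v then qn q (aL m V v) else 1

/-- sum over the stable sets `T ≠ U` disjoint from `L` -/
def sB {R : Type} [CommRing R] (m : ℕ → ℕ) (q y : R) (U L : Finset ℕ) : R :=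
  ∑ T ∈ U.powerset.filter (fun T => ind m T ∧ Disjoint T L ∧ T ≠ U),
    y ^ T.card * q ^ ea m U T * Pm m q (U \ T)

/-- sum over the stable sets with `k` elements -/
def sk {R : Type} [CommRing R] (m : ℕ → ℕ) (q : R) (U : Finset ℕ) (k : ℕ) : R :=
  ∑ T ∈ U.powerset.filter (fun T => ind m T ∧ T.card = k), q ^ ea m U T * Pm m q (U \ T)

end Pool.Agent.HOOK
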