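import Pool.Agent.Lib.MP_263316_co.HOOK.SREC

/-!
MP_263316_co, project HOOK: the recursion for the initial segments of a connected graph.
-/

set_option autoImplicit false

namespace Pool.Agent.HOOK

open Finset Pool.Agent.SWC Pool.Agent.SWK

/-- left degree of the vertex `j` -/
def ld (g : ℕ → ℕ) (j : ℕ) : ℕ := aL g (range j) j

theorem ld_le (g : ℕ → ℕ) (j : ℕ) : ld g j ≤ j := by
  unfold ld aL
  exact (Finset.card_filter_le _ _).trans (by rw [Finset.card_range])

theorem NL_range {g : ℕ → ℕ} (hg : Monotone g) {b : ℕ} (hb : 0 < b) (hc : b ≤ g (b - 1)) :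
    NL g (range b) b = Ico (b - ld g b) b ∧ 1 ≤ ld g b := by
  have hne : (NL g (range b) b).Nonempty := by
    refine ⟨b - 1, ?_⟩
    unfold NL
    rw [Finset.mem_filter, Finset.mem_range]
    exact ⟨by omega, by omega, hc⟩
  have hp := (NL g (range b) b).min'_mem hne
  set p := (NL g (range b) b).min' hne with hpd
  have h1 : NL g (range b) b = Ico p b := by
    ext u
    rw [Finset.mem_Ico]
    constructor
    · intro hu
      refine ⟨(NL g (range b) b).min'_le u hu, ?_⟩
      unfold NL at hu
      rw [Finset.mem_filter] at hu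
      exact hu.2.1
    · rintro ⟨h1, h2⟩
      unfold NL at hp ⊢
      rw [Finset.mem_filter] at hp ⊢
      exact ⟨Finset.mem_range.mpr h2, h2, hp.2.2.trans (hg h1)⟩
  have h2 : ld g b = b - p := by
    have : ld g b = (NL g (range b) b).card := rfl
    rw [this, h1, Nat.card_Ico]
  have h3 : p < b := by
    rw [h1, Finset.mem_Ico] at hp
    exact hp.2
  refine ⟨?_, by omega⟩
  rw [h1, h2]
  congr 1
  omega

theorem not_ind {g : ℕ → ℕ} (h0 : 1 ≤ g 0) {b : ℕ} (hb : 2 ≤ b) : ¬ ind g (range b) := by
  intro h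
  exact h 0 (Finset.mem_range.mpr (by omega)) 1 (Finset.mem_range.mpr (by omega))
    ⟨by omega, h0⟩

private theorem tele {R : Type} [CommRing R] {g : ℕ → ℕ} (hg : Monotone g) (q y : R) (n : ℕ)
    (hc : ∀ j, 0 < j → j < n → j ≤ g (j - 1)) (h0 : 1 ≤ g 0) (p : ℕ) (b : ℕ)
    (hb : max p 2 ≤ b) : b ≤ n → b - 1 ≤ g p →
    sW g q y (range b) (Ico p b) = (∏ j ∈ Ico (max p 2) b, (q * qn q (ld g j - 1))) *
      sW g q y (range (max p 2)) (Ico p (max p 2)) := by
  induction b, hb using Nat.le_induction with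
  | base => intro _ _; rw [Finset.Ico_self, Finset.prod_empty, one_mul]
  | succ b hb ih =>
    intro hbn hcl
    have hp2 : 2 ≤ b := (le_max_right p 2).trans hb
    have hpb : p ≤ b := (le_max_left p 2).trans hb
    have hcb := hc b (by omega) (by omega)
    obtain ⟨hNL, hl⟩ := NL_range hg (by omega : 0 < b) hcb
    have hL : Ico p b ⊆ NL g (range b) b := by
      intro u hu
      rw [Finset.mem_Ico] at hu
      unfold NL
      rw [Finset.mem_filter, Finset.mem_range]
      have := hg hu.1
      exact ⟨hu.2, hu.2, by omega⟩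
    have h1 := sW_step q y (D := range b) (t := b) (m := g)
      (fun u hu => Finset.mem_range.mp hu) (not_ind h0 hp2) hl (Ico p b) hL
    rw [← Finset.range_add_one] at h1
    have h2 : insert b (Ico p b) = Ico p (b + 1) := by
      rw [← Nat.Ico_succ_right_eq_insert_Ico hpb]
    rw [h2] at h1
    rw [h1, Finset.prod_Ico_succ_top hb, ih (by omega) (by omega)]
    change q * qn q (ld g b - 1) * _ = _
    ring

theorem sB_two {R : Type} [CommRing R] {g : ℕ → ℕ} (q y : R) (h0 : 1 ≤ g 0) :
    sB g q y (range 2) ∅ = 1 + (1 + q) * y ∧ sB g q y (range 2) (Ico 1 2) = 1 + q * y ∧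
      sB g q y (range 2) (Ico 0 2) = 1 := by
  have hps : (range 2).powerset = {∅, {0}, {1}, {0, 1}} := by decide
  have i0 : ind g ∅ := fun u hu => absurd hu (Finset.notMem_empty u)
  have i1 : ∀ a : ℕ, ind g {a} := by
    intro a u hu v hv h
    rw [Finset.mem_singleton] at hu hv
    omega
  have i2 : ¬ ind g {0, 1} := fun h => h 0 (by simp) 1 (by simp) ⟨by omega, h0⟩
  have a1 : aL g {0} 1 = 1 := by
    unfold aL
    rw [Finset.filter_singleton, if_pos ⟨by omega, h0⟩, Finset.card_singleton]
  have a2 : aL g {1} 0 = 0 := by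
    unfold aL
    rw [Finset.filter_singleton, if_neg (by omega), Finset.card_empty]
  have q1 : qn q 1 = 1 := by simp [qn]
  have e0 : ea g (range 2) ∅ = 0 := by unfold ea aL; simp
  have e1 : ea g (range 2) {0} = 1 := by
    have h : range 2 \ {0} = {1} := by decide
    unfold ea
    rw [h, Finset.sum_singleton, a1]
  have e2 : ea g (range 2) {1} = 0 := by
    have h : range 2 \ {1} = {0} := by decide
    unfold ea
    rw [h, Finset.sum_singleton, a2]
  have p1 : ∀ a : ℕ, Pm g q {a} = 1 := by
    intro a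
    unfold Pm
    rw [Finset.prod_singleton, if_neg]
    rintro ⟨u, hu, h⟩
    rw [Finset.mem_singleton] at hu
    omega
  have p2 : Pm g q (range 2) = 1 := by
    have h : range 2 = insert 1 {0} := by decide
    rw [h, Pm_insert (fun u hu => by rw [Finset.mem_singleton] at hu; omega)
      (Finset.singleton_nonempty 0), p1, a1, q1, mul_one]
  have d0 : range 2 \ ∅ = range 2 := by decide
  have d1 : range 2 \ {0} = {1} := by decide
  have d2 : range 2 \ {1} = {0} := by decide
  have key : ∀ L : Finset ℕ, sB g q y (range 2) L = 1 + (if Disjoint {0} L then y * q else 0) +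
      (if Disjoint {1} L then y else 0) := by
    intro L
    have f3 : ¬ (ind g {0, 1} ∧ Disjoint {0, 1} L ∧ ({0, 1} : Finset ℕ) ≠ range 2) :=
      fun h => i2 h.1
    unfold sB
    rw [Finset.sum_filter, hps, Finset.sum_insert (by decide), Finset.sum_insert (by decide),
      Finset.sum_insert (by decide), Finset.sum_singleton,
      if_pos ⟨i0, Finset.disjoint_empty_left L, by decide⟩, if_neg f3,
      e0, e1, e2, d0, d1, d2, p1, p1, p2]
    have f1 : (ind g {0} ∧ Disjoint {0} L ∧ ({0} : Finset ℕ) ≠ range 2) ↔ Disjoint {0} L :=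
      ⟨fun h => h.2.1, fun h => ⟨i1 0, h, by decide⟩⟩
    have f2 : (ind g {1} ∧ Disjoint {1} L ∧ ({1} : Finset ℕ) ≠ range 2) ↔ Disjoint {1} L :=
      ⟨fun h => h.2.1, fun h => ⟨i1 1, h, by decide⟩⟩
    simp only [f1, f2, Finset.card_empty, Finset.card_singleton, pow_zero, pow_one, mul_one,
      add_zero]
    ring
  refine ⟨?_, ?_, ?_⟩
  · rw [key, if_pos (Finset.disjoint_empty_right _), if_pos (Finset.disjoint_empty_right _)]
    ring
  · rw [key, if_pos (by decide), if_neg (by decide)]
    ring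
  · rw [key, if_neg (by decide), if_neg (by decide)]
    ring

/-- the recursion -/
theorem s_rec {R : Type} [CommRing R] {g : ℕ → ℕ} (hg : Monotone g) (q y : R) (n : ℕ)
    (hc : ∀ j, 0 < j → j < n → j ≤ g (j - 1)) (b : ℕ) (hb : 2 ≤ b) (hbn : b < n) :
    1 ≤ ld g b ∧ sB g q y (range (b + 1)) ∅ = qn q (ld g b) * sB g q y (range b) ∅ +
      (if 2 ≤ b - ld g b then (∏ j ∈ Ico (b - ld g b) b, (q * qn q (ld g j - 1))) *
          (y * sB g q y (range (b - ld g b)) ∅)
        else if b - ld g b = 1 then (∏ j ∈ Ico 2 b, (q * qn q (ld g j - 1))) * (q * y ^ 2)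
        else (∏ j ∈ Ico 2 b, (q * qn q (ld g j - 1))) * (- (q * y))) := by
  have h0 : 1 ≤ g 0 := hc 1 (by omega) (by omega)
  have hcb := hc b (by omega) hbn
  obtain ⟨hNL, hl⟩ := NL_range hg (by omega : 0 < b) hcb
  refine ⟨hl, ?_⟩
  have h1 := sB_rec q y (D := range b) (t := b) (m := g) (fun u hu => Finset.mem_range.mp hu)
    (not_ind h0 hb) hl
  rw [← Finset.range_add_one, hNL] at h1
  rw [h1]
  change qn q (ld g b) * _ + _ = _
  congr 1
  have hcl : b - 1 ≤ g (b - ld g b) := by
    have h2 : b - ld g b ∈ NL g (range b) b := by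
      rw [hNL, Finset.mem_Ico]
      omega
    unfold NL at h2
    rw [Finset.mem_filter] at h2
    omega
  have h3 := tele hg q y n hc h0 (b - ld g b) b (by omega) (by omega) hcl
  obtain ⟨t0, t1, t2⟩ := sB_two (g := g) q y h0
  by_cases hp : 2 ≤ b - ld g b
  · rw [if_pos hp, h3, max_eq_left hp, Finset.Ico_self]
    unfold sW
    ring
  · rw [if_neg hp, h3, max_eq_right (by omega)]
    by_cases hp1 : b - ld g b = 1
    · rw [if_pos hp1, hp1]
      unfold sW
      rw [t0, t1]
      ring
    · rw [if_neg hp1, show b - ld g b = 0 by omega]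
      unfold sW
      rw [t0, t2]
      ring

end Pool.Agent.HOOK
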