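import Pool.Agent.Lib.MP_263316_co.HOOK.Def
import Pool.Agent.Lib.MP_263316_co.COEF
import Pool.Agent.Lib.MP_263316_co.SWK.Spec

/-!
MP_263316_co, project HOOK: symmetry, the one-part coefficient.
-/

set_option autoImplicit false

namespace Pool.Agent.HOOK

open Finset Pool.Agent.SWC Pool.Agent.SWK

theorem es_coeff {R : Type} [CommRing R] {N : ℕ} (x : Fin N → R) (d : ℕ) :
    (∏ k : Fin N, (1 + Polynomial.X * Polynomial.C (x k))).coeff d = es x d :=
  COEFx.main univ x d

theorem es_perm {R : Type} [CommRing R] {N : ℕ} (x : Fin N → R) (σ : Equiv.Perm (Fin N))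
    (d : ℕ) : es (fun k => x (σ k)) d = es x d := by
  rw [← es_coeff, ← es_coeff]
  congr 1
  exact Equiv.prod_comp σ (fun k => 1 + Polynomial.X * Polynomial.C (x k))

theorem es_map {R R' : Type} [CommRing R] [CommRing R'] (φ : R →+* R') {N : ℕ} (x : Fin N → R)
    (d : ℕ) : φ (es x d) = es (fun k => φ (x k)) d := by
  unfold es
  rw [map_sum]
  exact Finset.sum_congr rfl fun C _ => map_prod φ _ _

theorem ini_single {m : ℕ → ℕ} {U : Finset ℕ} {r : ℕ} (hr : r ∈ U) (hmin : ∀ u ∈ U, r ≤ u) :
    Ini m {r} U := by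
  refine ⟨Finset.singleton_subset_iff.mpr hr, fun b hb u hu h => ?_, fun u hu v hv h => ?_⟩
  · rw [Finset.mem_singleton] at hb
    have := hmin u hu
    omega
  · rw [Finset.mem_singleton] at hu hv
    omega

theorem XX_perm (hXF : XFc) (K : Type) [Field K] (m : ℕ → ℕ) (hm : Monotone m) (q : K)
    (hq0 : q ≠ 0) (hq1 : q ≠ 1) (N : ℕ) (σ : Equiv.Perm (Fin N)) (x : Fin N → K) :
    ∀ U : Finset ℕ, XX m q (fun k => x (σ k)) U = XX m q x U := by
  intro U
  induction U using Finset.strongInduction with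
  | H U ih =>
    rcases U.eq_empty_or_nonempty with rfl | hne
    · simp [XX]
    · have hr := U.min'_mem hne
      have hmin : ∀ u ∈ U, U.min' hne ≤ u := fun u hu => U.min'_le u hu
      have hI := ini_single (m := m) hr hmin
      have h1 := hXF K m hm q hq0 hq1 N x {U.min' hne} U hI
      have h2 := hXF K m hm q hq0 hq1 N (fun k => x (σ k)) {U.min' hne} U hI
      have h3 : (1 - q) ^ ({U.min' hne} : Finset ℕ).card ≠ 0 :=
        pow_ne_zero _ (sub_ne_zero.mpr hq1.symm)
      refine mul_left_cancel₀ h3 ?_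
      rw [h1, h2]
      refine Finset.sum_congr rfl fun S hS => ?_
      rw [Finset.mem_filter, Finset.mem_powerset] at hS
      rw [es_perm, ih (U \ S)]
      refine Finset.sdiff_ssubset hS.1 ?_
      exact ⟨_, hS.2 (Finset.mem_singleton_self _)⟩

/-- symmetry over the integral ring -/
theorem XX_symm (hXF : XFc) (m : ℕ → ℕ) (hm : Monotone m) (N : ℕ) (U : Finset ℕ) :
    (XX m (qq N) (xx N) U).IsSymmetric := by
  intro σ
  have hinj : Function.Injective (algebraMap (AN N) (FractionRing (AN N))) :=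
    IsFractionRing.injective (AN N) (FractionRing (AN N))
  have h1 : MvPolynomial.rename σ (XX m (qq N) (xx N) U) =
      XX m (qq N) (fun k => xx N (σ k)) U := by
    have h := Z_map (R := AN N) (R' := AN N)
      ((MvPolynomial.rename σ : AN N →ₐ[Polynomial ℤ] AN N) : AN N →+* AN N) m (qq N) U
      (fun _ k => xx N k)
    have e1 : ((MvPolynomial.rename σ : AN N →ₐ[Polynomial ℤ] AN N) : AN N →+* AN N) (qq N) =
        qq N := MvPolynomial.rename_C σ Polynomial.X
    rw [e1] at h
    refine h.trans ?_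
    unfold XX
    congr 1
    funext v k
    exact MvPolynomial.rename_X σ k
  rw [h1]
  apply hinj
  have hmap : ∀ x : Fin N → AN N, algebraMap (AN N) (FractionRing (AN N)) (XX m (qq N) x U) =
      XX m (algebraMap (AN N) (FractionRing (AN N)) (qq N))
        (fun k => algebraMap (AN N) (FractionRing (AN N)) (x k)) U :=
    fun x => Z_map (algebraMap (AN N) (FractionRing (AN N))) m (qq N) U (fun _ k => x k)
  rw [hmap, hmap]
  have hq0 : algebraMap (AN N) (FractionRing (AN N)) (qq N) ≠ 0 := by
    intro h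
    have h' := hinj (h.trans (map_zero _).symm)
    unfold qq at h'
    rw [← MvPolynomial.C_0] at h'
    exact Polynomial.X_ne_zero (MvPolynomial.C_injective (Fin N) (Polynomial ℤ) h')
  have hq1 : algebraMap (AN N) (FractionRing (AN N)) (qq N) ≠ 1 := by
    intro h
    have h' := hinj (h.trans (map_one _).symm)
    unfold qq at h'
    rw [← MvPolynomial.C_1] at h'
    have h2 := MvPolynomial.C_injective (Fin N) (Polynomial ℤ) h'
    have h3 := congrArg (fun p => Polynomial.coeff p 0) h2
    simp at h3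
  exact XX_perm hXF (FractionRing (AN N)) m hm _ hq0 hq1 N σ
    (fun k => algebraMap (AN N) (FractionRing (AN N)) (xx N k)) U

theorem aL_min {m : ℕ → ℕ} {V : Finset ℕ} {v : ℕ} (h : ∀ u ∈ V, v ≤ u) : aL m V v = 0 := by
  unfold aL
  rw [Finset.card_eq_zero, Finset.filter_eq_empty_iff]
  intro u hu
  have := h u hu
  omega

theorem qn_zero' {R : Type} [CommRing R] (q : R) : qn q 0 = 0 := by simp [qn]

theorem Pm_eq {R : Type} [CommRing R] {m : ℕ → ℕ} {q : R} {V : Finset ℕ} {r : ℕ} (hr : r ∈ V)
    (hmin : ∀ u ∈ V, r ≤ u) : Pm m q V = PiR m q {r} V := by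
  unfold Pm PiR
  rw [← Finset.prod_sdiff (Finset.singleton_subset_iff.mpr hr), Finset.prod_singleton,
    if_neg (fun ⟨u, hu, h⟩ => by have := hmin u hu; omega), mul_one]
  refine Finset.prod_congr rfl fun v hv => ?_
  rw [Finset.mem_sdiff, Finset.mem_singleton] at hv
  rw [if_pos ⟨r, hr, lt_of_le_of_ne (hmin v hv.1) (fun h => hv.2 h.symm)⟩]

theorem KS_single (K : Type) [Field K] (m : ℕ → ℕ) (q : K) (r : ℕ) (S : Finset ℕ)
    (a b : ℕ → K) (hr : r ∈ S) :
    KS m q {r} a b S = (∏ u ∈ S, a u) * PiR m q {r} S -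
      (∏ u ∈ S, b u) * ∏ u ∈ S \ {r}, (q⁻¹ ^ aL m S u * qn q (aL m S u)) := by
  unfold KS
  rw [Finset.sum_eq_add (∅ : Finset ℕ) S]
  · simp only [Finset.empty_inter, Finset.card_empty, pow_zero, Finset.sdiff_empty,
      Finset.prod_empty, one_mul, mul_one, Finset.empty_sdiff, Finset.sdiff_self]
    have h1 : (S ∩ {r}).card = 1 := by
      rw [Finset.inter_singleton_of_mem hr, Finset.card_singleton]
    rw [h1, pow_one]
    unfold PiR
    simp only [Finset.empty_sdiff, Finset.prod_empty, mul_one]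
    ring
  · intro h
    rw [← h] at hr
    exact absurd hr (Finset.notMem_empty r)
  · intro P hP hne
    rw [Finset.mem_powerset] at hP
    by_cases hrP : r ∈ P
    · have hne' : (S \ P).Nonempty := by
        rw [Finset.sdiff_nonempty]
        exact fun h => hne.2 (Finset.Subset.antisymm hP h)
      have hv := (S \ P).min'_mem hne'
      have hv' := Finset.mem_sdiff.mp hv
      have hz : PiR m q {r} (S \ P) = 0 := by
        unfold PiR
        refine Finset.prod_eq_zero (i := (S \ P).min' hne') ?_ ?_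
        · rw [Finset.mem_sdiff, Finset.mem_singleton]
          exact ⟨hv, fun h => hv'.2 (h ▸ hrP)⟩
        · rw [aL_min (fun u hu => (S \ P).min'_le u hu), qn_zero']
      rw [hz, mul_zero, zero_mul]
    · have hne' : P.Nonempty := Finset.nonempty_iff_ne_empty.mpr hne.1
      have hv := P.min'_mem hne'
      have hz : ∏ u ∈ P \ {r}, (q⁻¹ ^ aL m P u * qn q (aL m P u)) = 0 := by
        refine Finset.prod_eq_zero (i := P.min' hne') ?_ ?_
        · rw [Finset.mem_sdiff, Finset.mem_singleton]
          exact ⟨hv, fun h => hrP (h ▸ hv)⟩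
        · rw [aL_min (fun u hu => P.min'_le u hu), qn_zero', mul_zero]
      rw [hz, mul_zero]
  · intro h
    exact absurd (Finset.empty_mem_powerset S) h
  · intro h
    exact absurd (Finset.mem_powerset_self S) h

/-- value of `X` at an alphabet with only one nonzero elementary symmetric function -/
theorem onepart (hXF : XFc) (K : Type) [Field K] (m : ℕ → ℕ) (hm : Monotone m) (q : K)
    (hq0 : q ≠ 0) (hq1 : q ≠ 1) (N : ℕ) (x : Fin N → K) (U : Finset ℕ) (hne : U.Nonempty)
    (hx : ∀ d, 0 < d → d < U.card → es x d = 0) :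
    XX m q x U = qn q U.card * Pm m q U * es x U.card := by
  have hr := U.min'_mem hne
  have hmin : ∀ u ∈ U, U.min' hne ≤ u := fun u hu => U.min'_le u hu
  set r := U.min' hne with hrdef
  have hI := ini_single (m := m) hr hmin
  have h1 := hXF K m hm q hq0 hq1 N x {r} U hI
  rw [Finset.card_singleton, pow_one, Finset.sum_eq_single U] at h1
  · have h3 : (1 - q) ≠ 0 := sub_ne_zero.mpr hq1.symm
    refine mul_left_cancel₀ h3 ?_
    rw [h1, KS_single K m q r U _ _ hr, Finset.sdiff_self]
    have h4 : XX m q x ∅ = 1 := by simp [XX]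
    have h5 : (∏ u ∈ U, q ^ aR m ∅ u) = 1 := by
      refine Finset.prod_eq_one fun u _ => ?_
      simp [aR]
    have h6 : (∏ u ∈ U, q ^ (1 + aL m U u)) * ∏ u ∈ U \ {r}, (q⁻¹ ^ aL m U u * qn q (aL m U u)) =
        q ^ U.card * PiR m q {r} U := by
      have h7 : (∏ u ∈ U, q ^ (1 + aL m U u)) = q ^ U.card * ∏ u ∈ U \ {r}, q ^ aL m U u := by
        have h8 : (∏ u ∈ U, q ^ aL m U u) = ∏ u ∈ U \ {r}, q ^ aL m U u := by
          rw [← Finset.prod_sdiff (Finset.singleton_subset_iff.mpr hr), Finset.prod_singleton,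
            aL_min hmin, pow_zero, mul_one]
        rw [← h8, ← Finset.prod_const, ← Finset.prod_mul_distrib]
        exact Finset.prod_congr rfl fun u _ => by rw [pow_add, pow_one]
      rw [h7, mul_assoc, ← Finset.prod_mul_distrib]
      unfold PiR
      congr 1
      refine Finset.prod_congr rfl fun u _ => ?_
      rw [← mul_assoc, inv_pow, mul_inv_cancel₀ (pow_ne_zero _ hq0), one_mul]
    rw [h4, h5, h6, Pm_eq hr hmin]
    have h9 : (1 - q) * qn q U.card = 1 - q ^ U.card := by
      unfold qn
      exact mul_neg_geom_sum q U.card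
    linear_combination (-(PiR m q {r} U * es x U.card)) * h9
  · intro S hS hSU
    rw [Finset.mem_filter, Finset.mem_powerset] at hS
    have h2 : es x S.card = 0 := by
      refine hx _ (Finset.card_pos.mpr ⟨r, hS.2 (Finset.mem_singleton_self r)⟩) ?_
      exact Finset.card_lt_card (Finset.ssubset_iff_subset_ne.mpr ⟨hS.1, hSU⟩)
    rw [h2, mul_zero, zero_mul]
  · intro h
    exfalso
    apply h
    rw [Finset.mem_filter]
    exact ⟨Finset.mem_powerset_self U, hI.1⟩

end Pool.Agent.HOOK
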