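import Pool.Agent.Lib.MP_263316_co.HOOK.ALPH
import Pool.Agent.Lib.MP_263316_co.HOOK.SYM

/-!
MP_263316_co, project HOOK: the relations for the hook coefficients.
-/

set_option autoImplicit false

namespace Pool.Agent.HOOK

open Finset Pool.Agent.SWC Pool.Agent.SWK

theorem exists_tr : ∃ q : ℂ, Function.Injective (Polynomial.aeval q : Polynomial ℤ → ℂ) := by
  refine ⟨((liouvilleNumber 2 : ℝ) : ℂ), ?_⟩
  have h : Transcendental ℤ (liouvilleNumber 2 : ℝ) := by
    have := transcendental_liouvilleNumber (m := 2) le_rfl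
    simpa using this
  have h2 : Transcendental ℤ (algebraMap ℝ ℂ (liouvilleNumber 2)) :=
    (transcendental_algebraMap_iff (FaithfulSMul.algebraMap_injective ℝ ℂ)).mpr h
  exact transcendental_iff_injective.mp h2

theorem qn_map {R R' : Type} [CommRing R] [CommRing R'] (φ : R →+* R') (q : R) (n : ℕ) :
    φ (qn q n) = qn (φ q) n := by
  unfold qn
  rw [map_sum]
  exact Finset.sum_congr rfl fun i _ => map_pow φ q i

theorem Pm_map {R R' : Type} [CommRing R] [CommRing R'] (φ : R →+* R') (m : ℕ → ℕ) (q : R)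
    (V : Finset ℕ) : φ (Pm m q V) = Pm m (φ q) V := by
  unfold Pm
  rw [map_prod]
  refine Finset.prod_congr rfl fun v _ => ?_
  split_ifs
  · exact qn_map φ q _
  · exact map_one φ

theorem sk_map {R R' : Type} [CommRing R] [CommRing R'] (φ : R →+* R') (m : ℕ → ℕ) (q : R)
    (U : Finset ℕ) (k : ℕ) : φ (sk m q U k) = sk m (φ q) U k := by
  unfold sk
  rw [map_sum]
  exact Finset.sum_congr rfl fun T _ => by rw [map_mul, map_pow, Pm_map]

private theorem es_cons (hESZ : S_ESZ) {N : ℕ} (x : Fin N → ℂ) (d : ℕ) :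
    es (Fin.cons Polynomial.X (fun k => Polynomial.C (x k)) : Fin (N + 1) → Polynomial ℂ)
      (d + 1) = Polynomial.C (es x (d + 1)) + Polynomial.X * Polynomial.C (es x d) := by
  have h := hESZ.1 (Polynomial ℂ) N
    (Fin.cons Polynomial.X (fun k => Polynomial.C (x k)) : Fin (N + 1) → Polynomial ℂ)
    ((d : ℤ) + 1)
  have hs : (fun k : Fin N => (Fin.cons Polynomial.X (fun k => Polynomial.C (x k)) :
      Fin (N + 1) → Polynomial ℂ) k.succ) = fun k => Polynomial.C (x k) := by
    funext k; rfl
  rw [hs, Fin.cons_zero] at h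
  unfold esz at h
  rw [if_neg (by omega), if_neg (by omega), if_neg (by omega),
    show ((d : ℤ) + 1).toNat = d + 1 by omega, show ((d : ℤ) + 1 - 1).toNat = d by omega] at h
  rw [h, es_map Polynomial.C x (d + 1), es_map Polynomial.C x d]

private theorem eval_XX (N : ℕ) (g : ℕ → ℕ) (U : Finset ℕ) (q : ℂ) {A : Type} [CommRing A]
    (ι : ℂ →+* A) (x : Fin N → A) (n : ℕ) (a : n.Partition → Polynomial ℤ)
    (ha : XX g (qq N) (xx N) U =
      ∑ μ : n.Partition, MvPolynomial.C (a μ) * (μ.parts.map (es (xx N))).prod) :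
    XX g (ι q) x U = ∑ μ : n.Partition, ι (Polynomial.aeval q (a μ)) *
      (μ.parts.map (es x)).prod := by
  set ψ : Polynomial ℤ →+* A := ι.comp (Polynomial.aeval q : Polynomial ℤ →ₐ[ℤ] ℂ).toRingHom
    with hψ
  set φ : AN N →+* A := MvPolynomial.eval₂Hom ψ x with hφ
  have h1 : φ (XX g (qq N) (xx N) U) = XX g (ι q) x U := by
    have h := Z_map φ g (qq N) U (fun _ k => xx N k)
    have e1 : φ (qq N) = ι q := by
      rw [hφ, qq, MvPolynomial.coe_eval₂Hom, MvPolynomial.eval₂_C, hψ]
      change ι (Polynomial.aeval q Polynomial.X) = ι q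
      rw [Polynomial.aeval_X]
    have e2 : ∀ k, φ (xx N k) = x k := fun k => by
      rw [hφ, xx, MvPolynomial.coe_eval₂Hom, MvPolynomial.eval₂_X]
    unfold XX
    rw [h, e1]
    simp only [e2]
  rw [← h1, ha, map_sum]
  refine Finset.sum_congr rfl fun μ _ => ?_
  rw [map_mul, map_multiset_prod, Multiset.map_map]
  congr 1
  · rw [hφ, MvPolynomial.coe_eval₂Hom, MvPolynomial.eval₂_C, hψ]
    rfl
  · refine congrArg Multiset.prod (Multiset.map_congr rfl fun d _ => ?_)
    rw [Function.comp_apply, es_map]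
    congr 1
    funext k
    rw [hφ, xx, MvPolynomial.coe_eval₂Hom, MvPolynomial.eval₂_X]

private theorem coeff_XX (hSPL : S_SPL) {N : ℕ} (g : ℕ → ℕ) (U : Finset ℕ) (q : ℂ)
    (x : Fin N → ℂ) (k : ℕ) :
    (XX g (Polynomial.C q)
      (Fin.cons Polynomial.X (fun k => Polynomial.C (x k)) : Fin (N + 1) → Polynomial ℂ) U).coeff k =
    ∑ T ∈ U.powerset.filter (fun T => ind g T ∧ T.card = k), q ^ ea g U T * XX g q x (U \ T) := by
  rw [hSPL (Polynomial ℂ) N g (Polynomial.C q) _ U, Polynomial.finsetSum_coeff]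
  have hs : (fun k : Fin N => (Fin.cons Polynomial.X (fun k => Polynomial.C (x k)) :
      Fin (N + 1) → Polynomial ℂ) k.succ) = fun k => Polynomial.C (x k) := by
    funext k; rfl
  have h1 : ∀ T : Finset ℕ, ((Fin.cons Polynomial.X (fun k => Polynomial.C (x k)) :
      Fin (N + 1) → Polynomial ℂ) 0 ^ T.card * Polynomial.C q ^ ea g U T *
      XX g (Polynomial.C q) (fun k : Fin N => (Fin.cons Polynomial.X
        (fun k => Polynomial.C (x k)) : Fin (N + 1) → Polynomial ℂ) k.succ) (U \ T)).coeff k =
      if T.card = k then q ^ ea g U T * XX g q x (U \ T) else 0 := by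
    intro T
    have h2 : XX g (Polynomial.C q) (fun k => Polynomial.C (x k)) (U \ T) =
        Polynomial.C (XX g q x (U \ T)) :=
      (Z_map Polynomial.C g q (U \ T) (fun _ k => x k)).symm
    rw [hs, h2, Fin.cons_zero, ← Polynomial.C_pow, mul_assoc, ← Polynomial.C_mul, mul_comm,
      Polynomial.coeff_C_mul, Polynomial.coeff_X_pow]
    by_cases h : T.card = k
    · rw [if_pos h, if_pos h.symm, mul_one]
    · rw [if_neg h, if_neg (fun e => h e.symm), mul_zero]
  rw [Finset.sum_congr rfl fun T _ => h1 T, ← Finset.sum_filter, Finset.filter_filter]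

/-- the relations -/
theorem hook_rel (hXF : XFc) (hSPL : S_SPL) (hESZ : S_ESZ) (g : ℕ → ℕ) (hg : Monotone g)
    (N n : ℕ) (U : Finset ℕ) (hU : U.card = n) (hnN : n ≤ N) (a : n.Partition → Polynomial ℤ)
    (ha : XX g (qq N) (xx N) U =
      ∑ μ : n.Partition, MvPolynomial.C (a μ) * (μ.parts.map (es (xx N))).prod) :
    (∀ (m k : ℕ) (hm : 2 ≤ m) (hk : 1 ≤ k) (hn : n = m + k),
      a (hookP n m (by omega) (by omega)) + a (hookP n (m + 1) (by omega) (by omega)) =
        qn Polynomial.X m * sk g Polynomial.X U k) ∧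
    (∀ hn : 1 ≤ n, a (hookP n n hn le_rfl) = qn Polynomial.X n * sk g Polynomial.X U 0) ∧
    (∀ hn : 1 ≤ n, a (hookP n 1 le_rfl hn) = if ind g U then 1 else 0) := by
  obtain ⟨q, hq⟩ := exists_tr
  have hq0 : q ≠ 0 := by
    intro h
    have h1 : Polynomial.aeval q (Polynomial.X : Polynomial ℤ) =
        Polynomial.aeval q (0 : Polynomial ℤ) := by
      rw [Polynomial.aeval_X, map_zero, h]
    exact Polynomial.X_ne_zero (hq h1)
  have hq1 : q ≠ 1 := by
    intro h
    have h1 : Polynomial.aeval q (Polynomial.X : Polynomial ℤ) =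
        Polynomial.aeval q (1 : Polynomial ℤ) := by
      rw [Polynomial.aeval_X, map_one, h]
    have h2 := congrArg (fun p : Polynomial ℤ => p.coeff 0) (hq h1)
    simp at h2
  have hmapq : ∀ m k : ℕ, Polynomial.aeval q
      (qn Polynomial.X m * sk g Polynomial.X U k : Polynomial ℤ) = qn q m * sk g q U k := by
    intro m k
    have h1 := qn_map ((Polynomial.aeval q : Polynomial ℤ →ₐ[ℤ] ℂ) : Polynomial ℤ →+* ℂ)
      Polynomial.X m
    have h2 := sk_map ((Polynomial.aeval q : Polynomial ℤ →ₐ[ℤ] ℂ) : Polynomial ℤ →+* ℂ) g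
      Polynomial.X U k
    have h3 : ((Polynomial.aeval q : Polynomial ℤ →ₐ[ℤ] ℂ) : Polynomial ℤ →+* ℂ)
      Polynomial.X = q := Polynomial.aeval_X q
    rw [h3] at h1 h2
    rw [map_mul]
    exact congrArg₂ (· * ·) h1 h2
  refine ⟨fun m k hm hk hn => ?_, fun hn => ?_, fun hn => ?_⟩
  · obtain ⟨N', rfl⟩ : ∃ N', N = N' + 1 := ⟨N - 1, by omega⟩
    obtain ⟨x, hx⟩ := exists_alph N' m (by omega) (by omega)
    apply hq
    have h1 := eval_XX (N' + 1) g U q Polynomial.C
      (Fin.cons Polynomial.X (fun k => Polynomial.C (x k)) : Fin (N' + 1) → Polynomial ℂ) n a ha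
    have h2 := congrArg (fun p => Polynomial.coeff p k) h1
    rw [coeff_XX hSPL g U q x k] at h2
    have e1 : es (Fin.cons Polynomial.X (fun k => Polynomial.C (x k)) :
        Fin (N' + 1) → Polynomial ℂ) 1 = Polynomial.X := by
      rw [es_cons hESZ x 0, hx, hx, if_neg (by omega), if_neg (by omega), if_pos rfl, map_zero,
        map_one, zero_add, mul_one]
    have e2 : es (Fin.cons Polynomial.X (fun k => Polynomial.C (x k)) :
        Fin (N' + 1) → Polynomial ℂ) m = Polynomial.C (-1) := by
      obtain ⟨m', rfl⟩ : ∃ m', m = m' + 1 := ⟨m - 1, by omega⟩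
      rw [es_cons hESZ x m', hx, hx, if_neg (by omega), if_pos rfl, if_neg (by omega),
        if_neg (by omega), map_zero, mul_zero, add_zero]
    have e3 : es (Fin.cons Polynomial.X (fun k => Polynomial.C (x k)) :
        Fin (N' + 1) → Polynomial ℂ) (m + 1) = Polynomial.C (-1) * Polynomial.X := by
      rw [es_cons hESZ x m, hx, hx, if_neg (by omega), if_neg (by omega), if_neg (by omega),
        if_pos rfl, map_zero, zero_add, mul_comm]
    have e4 : ∀ d, 0 < d → d ≠ 1 → d ≠ m → d ≠ m + 1 →
        es (Fin.cons Polynomial.X (fun k => Polynomial.C (x k)) :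
        Fin (N' + 1) → Polynomial ℂ) d = 0 := by
      intro d h0 h1 h2 h3
      obtain ⟨d', rfl⟩ : ∃ d', d = d' + 1 := ⟨d - 1, by omega⟩
      rw [es_cons hESZ x d', hx, hx, if_neg (by omega), if_neg h2, if_neg (by omega),
        if_neg (by omega), map_zero, mul_zero, add_zero]
    rw [hook_sum n m k hm hk hn (-1) _ e1 e2 e3 e4] at h2
    rw [hmapq, map_add]
    have h5 : ∑ T ∈ U.powerset.filter (fun T => ind g T ∧ T.card = k),
        q ^ ea g U T * XX g q x (U \ T) = - (qn q m * sk g q U k) := by
      unfold sk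
      rw [Finset.mul_sum, ← Finset.sum_neg_distrib]
      refine Finset.sum_congr rfl fun T hT => ?_
      rw [Finset.mem_filter, Finset.mem_powerset] at hT
      have hc : (U \ T).card = m := by
        rw [Finset.card_sdiff_of_subset hT.1, hU, hT.2.2]
        omega
      rw [onepart hXF ℂ g hg q hq0 hq1 N' x (U \ T) (Finset.card_pos.mp (by omega))
        (fun d hd hd' => by rw [hx, if_neg (by omega), if_neg (by omega)]), hc, hx,
        if_neg (by omega), if_pos rfl]
      ring
    rw [h5] at h2
    linear_combination h2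
  · obtain ⟨x, hx⟩ := exists_alph N n hn hnN
    apply hq
    have h1 := eval_XX N g U q (RingHom.id ℂ) x n a ha
    simp only [RingHom.id_apply] at h1
    rw [full_sum n hn (-1) (es x) (by rw [hx, if_neg (by omega), if_pos rfl])
      (fun d hd hd' => by rw [hx, if_neg (by omega), if_neg (by omega)]),
      onepart hXF ℂ g hg q hq0 hq1 N x U (Finset.card_pos.mp (by omega))
        (fun d hd hd' => by rw [hx, if_neg (by omega), if_neg (by omega)]), hU, hx,
        if_neg (by omega), if_pos rfl] at h1
    rw [hmapq]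
    have h5 : sk g q U 0 = Pm g q U := by
      unfold sk
      rw [Finset.sum_eq_single ∅]
      · have : ea g U ∅ = 0 := by
          unfold ea aL
          simp
        rw [this, pow_zero, one_mul, Finset.sdiff_empty]
      · intro T hT hne
        rw [Finset.mem_filter] at hT
        exact absurd (Finset.card_eq_zero.mp hT.2.2) hne
      · intro h
        exfalso
        apply h
        rw [Finset.mem_filter]
        refine ⟨Finset.empty_mem_powerset U, fun u hu => absurd hu (Finset.notMem_empty u), rfl⟩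
    rw [h5]
    linear_combination h1
  · obtain ⟨N', rfl⟩ : ∃ N', N = N' + 1 := ⟨N - 1, by omega⟩
    apply hq
    have h1 := eval_XX (N' + 1) g U q Polynomial.C
      (Fin.cons Polynomial.X (fun _ => Polynomial.C (0 : ℂ)) :
        Fin (N' + 1) → Polynomial ℂ) n a ha
    have h2 := congrArg (fun p => Polynomial.coeff p n) h1
    rw [coeff_XX hSPL g U q (fun _ => (0 : ℂ)) n] at h2
    have e1 : es (Fin.cons Polynomial.X (fun _ => Polynomial.C (0 : ℂ)) :
        Fin (N' + 1) → Polynomial ℂ) 1 = Polynomial.X := by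
      rw [es_cons hESZ (fun _ => (0 : ℂ)) 0, es_nil, es_nil, if_neg (by omega), if_pos rfl,
        map_zero, map_one, zero_add, mul_one]
    have e4 : ∀ d, 1 < d →
        es (Fin.cons Polynomial.X (fun _ => Polynomial.C (0 : ℂ)) :
        Fin (N' + 1) → Polynomial ℂ) d = 0 := by
      intro d h0
      obtain ⟨d', rfl⟩ : ∃ d', d = d' + 1 := ⟨d - 1, by omega⟩
      rw [es_cons hESZ (fun _ => (0 : ℂ)) d', es_nil, es_nil, if_neg (by omega),
        if_neg (by omega), map_zero, mul_zero, add_zero]
    rw [ones_sum n hn _ e1 e4] at h2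
    rw [← h2]
    by_cases hi : ind g U
    · rw [if_pos hi, map_one, Finset.sum_eq_single U]
      · have : ea g U U = 0 := by
          unfold ea
          simp
        rw [this, pow_zero, one_mul, Finset.sdiff_self]
        simp [XX]
      · intro T hT hne
        rw [Finset.mem_filter, Finset.mem_powerset] at hT
        exfalso
        exact hne (Finset.eq_of_subset_of_card_le hT.1 (by omega))
      · intro h
        exfalso
        apply h
        rw [Finset.mem_filter]
        exact ⟨Finset.mem_powerset_self U, hi, hU⟩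
    · rw [if_neg hi, map_zero]
      refine Finset.sum_eq_zero fun T hT => ?_
      rw [Finset.mem_filter, Finset.mem_powerset] at hT
      exfalso
      have : T = U := Finset.eq_of_subset_of_card_le hT.1 (by omega)
      exact hi (this ▸ hT.2.1)

end Pool.Agent.HOOK
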