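import Pool.Agent.Lib.MP_263316_co.HOOK.INT
import Pool.Agent.Lib.MP_263316_co.HOOK.REL

/-!
MP_263316_co, project HOOK: positivity for connected graphs.
-/

set_option autoImplicit false

namespace Pool.Agent.HOOK

open Finset Pool.Agent.SWC Pool.Agent.SWK

/-! ### The cones with integer index -/

/-- palindromic unimodal with centre `d / 2`, or zero -/
def PUz (d : ℤ) (p : Polynomial ℤ) : Prop := p = 0 ∨ ∃ e : ℕ, (e : ℤ) = d ∧ p ∈ PU e

theorem PUz.zero (d : ℤ) : PUz d 0 := Or.inl rfl

theorem PUz.add {d : ℤ} {p p' : Polynomial ℤ} (h : PUz d p) (h' : PUz d p') :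
    PUz d (p + p') := by
  rcases h with rfl | ⟨e, he, hp⟩
  · rwa [zero_add]
  · rcases h' with rfl | ⟨e', he', hp'⟩
    · rw [add_zero]; exact Or.inr ⟨e, he, hp⟩
    · have : e = e' := by omega
      subst this
      exact Or.inr ⟨e, he, AddSubmonoid.add_mem _ hp hp'⟩

theorem PUz.mul (hmul : S_PUmul) {d d' : ℤ} {p p' : Polynomial ℤ} (h : PUz d p)
    (h' : PUz d' p') : PUz (d + d') (p * p') := by
  rcases h with rfl | ⟨e, he, hp⟩
  · rw [zero_mul]; exact PUz.zero _
  · rcases h' with rfl | ⟨e', he', hp'⟩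
    · rw [mul_zero]; exact PUz.zero _
    · exact Or.inr ⟨e + e', by push_cast; omega, hmul e e' p p' hp hp'⟩

theorem PUz.qn (k : ℕ) : PUz ((k : ℤ) - 1) (SWC.qn Polynomial.X k) := by
  rcases Nat.eq_zero_or_pos k with rfl | hk
  · left
    simp [SWC.qn]
  · refine Or.inr ⟨k - 1, by omega, AddSubmonoid.subset_closure ⟨0, k, by omega, ?_⟩⟩
    rw [pow_zero, one_mul]

theorem PUz.pow (j : ℕ) : PUz (2 * (j : ℤ)) (Polynomial.X ^ j) := by
  refine Or.inr ⟨2 * j, by push_cast; ring, AddSubmonoid.subset_closure ⟨j, 1, by omega, ?_⟩⟩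
  simp [SWC.qn]

theorem PUz.one : PUz 0 1 := by
  have := PUz.pow 0
  simpa using this

theorem PUz.prod (hmul : S_PUmul) (s : Finset ℕ) (f : ℕ → Polynomial ℤ) (d : ℕ → ℤ)
    (h : ∀ j ∈ s, PUz (d j) (f j)) : PUz (∑ j ∈ s, d j) (∏ j ∈ s, f j) := by
  induction s using Finset.induction_on with
  | empty => simpa using PUz.one
  | insert a s ha ih =>
    rw [Finset.sum_insert ha, Finset.prod_insert ha]
    exact PUz.mul hmul (h a (Finset.mem_insert_self a s))
      (ih fun j hj => h j (Finset.mem_insert_of_mem hj))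

theorem PUz.cast {d d' : ℤ} {p : Polynomial ℤ} (h : PUz d p) (e : d = d') : PUz d' p := e ▸ h

theorem PUz.mem {E : ℕ} {p : Polynomial ℤ} (h : PUz (E : ℤ) p) : p ∈ PU E := by
  rcases h with rfl | ⟨e, he, hp⟩
  · exact AddSubmonoid.zero_mem _
  · have : e = E := by omega
    exact this ▸ hp

/-! ### Identities for q-integers -/

section
variable {R : Type} [CommRing R]

theorem qn_s (q : R) (n : ℕ) : qn q (n + 1) = qn q n + q ^ n := by
  unfold qn
  rw [Finset.sum_range_succ]

theorem qn_a (q : R) (a b : ℕ) : qn q (a + b) = qn q a + q ^ a * qn q b := by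
  unfold qn
  rw [Finset.sum_range_add, Finset.mul_sum]
  congr 1
  exact Finset.sum_congr rfl fun i _ => pow_add q a i

theorem idA (q : R) (k p : ℕ) :
    qn q (k + 1) * qn q (k + p) = q ^ k * qn q p + qn q k * qn q (k + 1 + p) := by
  have h1 : qn q (k + 1 + p) = qn q (k + p) + q ^ (k + p) := by
    rw [show k + 1 + p = k + p + 1 by omega, qn_s]
  have h2 : qn q (k + p) = qn q p + q ^ p * qn q k := by rw [add_comm k p, qn_a]
  rw [h1, qn_s, pow_add]
  linear_combination (q ^ k) * h2

theorem idP (q : R) (p : ℕ) : qn q (p + 2) + q * qn q p = qn q (p + 1) + q * qn q (p + 1) := by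
  rw [show p + 2 = p + 1 + 1 by omega, qn_s q (p + 1), qn_s q p, pow_succ]
  ring

end

/-! ### The coefficients of the generating function -/

theorem coeff_sB (g : ℕ → ℕ) (U : Finset ℕ) (k : ℕ) (hk : k ≠ U.card) :
    (sB g (Polynomial.C Polynomial.X) (Polynomial.X : Polynomial (Polynomial ℤ)) U ∅).coeff k =
      sk g Polynomial.X U k := by
  unfold sB sk
  rw [Polynomial.finsetSum_coeff]
  have h1 : ∀ T : Finset ℕ, ((Polynomial.X : Polynomial (Polynomial ℤ)) ^ T.card *
      Polynomial.C Polynomial.X ^ ea g U T *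
      Pm g (Polynomial.C Polynomial.X : Polynomial (Polynomial ℤ)) (U \ T)).coeff k =
      if T.card = k then Polynomial.X ^ ea g U T * Pm g Polynomial.X (U \ T) else 0 := by
    intro T
    rw [← Pm_map (Polynomial.C : Polynomial ℤ →+* Polynomial (Polynomial ℤ)) g Polynomial.X
      (U \ T), ← Polynomial.C_pow, mul_assoc,
      ← Polynomial.C_mul, mul_comm, Polynomial.coeff_C_mul, Polynomial.coeff_X_pow]
    by_cases h : T.card = k
    · rw [if_pos h, if_pos h.symm, mul_one]
    · rw [if_neg h, if_neg (fun e => h e.symm), mul_zero]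
  rw [Finset.sum_congr rfl fun T _ => h1 T, ← Finset.sum_filter, Finset.filter_filter]
  refine Finset.sum_congr (Finset.filter_congr fun T _ => ?_) fun _ _ => rfl
  constructor
  · rintro ⟨⟨h2, _, _⟩, h3⟩
    exact ⟨h2, h3⟩
  · rintro ⟨h2, h3⟩
    exact ⟨⟨h2, Finset.disjoint_empty_right T, fun h => hk (by rw [← h3, h])⟩, h3⟩

/-- product of `[l - 1]` -/
noncomputable def rho (g : ℕ → ℕ) (b : ℕ) : Polynomial ℤ :=
  ∏ j ∈ Ico 2 b, qn Polynomial.X (ld g j - 1)

/-- number of edges -/
def Ez (g : ℕ → ℕ) (b : ℕ) : ℤ := ∑ j ∈ range b, (ld g j : ℤ)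

theorem prod_q (g : ℕ → ℕ) (a b : ℕ) :
    ∏ j ∈ Ico a b, ((Polynomial.C Polynomial.X : Polynomial (Polynomial ℤ)) *
      qn (Polynomial.C Polynomial.X : Polynomial (Polynomial ℤ)) (ld g j - 1)) =
    Polynomial.C (Polynomial.X ^ (b - a) * ∏ j ∈ Ico a b, qn Polynomial.X (ld g j - 1)) := by
  rw [Finset.prod_mul_distrib, Finset.prod_const, Nat.card_Ico, map_mul, map_pow, map_prod]
  congr 1
  exact Finset.prod_congr rfl fun j _ =>
    (qn_map (Polynomial.C : Polynomial ℤ →+* Polynomial (Polynomial ℤ)) Polynomial.X _).symm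

theorem deg_prod (hmul : S_PUmul) {g : ℕ → ℕ} (a b : ℕ) (hab : a ≤ b)
    (hl : ∀ j, a ≤ j → j < b → 1 ≤ ld g j) :
    PUz (Ez g b - Ez g a - 2 * ((b : ℤ) - a))
      (∏ j ∈ Ico a b, qn (Polynomial.X : Polynomial ℤ) (ld g j - 1)) := by
  have h1 := PUz.prod hmul (Ico a b) (fun j => qn (Polynomial.X : Polynomial ℤ) (ld g j - 1))
    (fun j => (ld g j : ℤ) - 2) (fun j hj => by
      rw [Finset.mem_Ico] at hj
      have := hl j hj.1 hj.2
      exact (PUz.qn (ld g j - 1)).cast (by omega))
  refine h1.cast ?_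
  rw [Finset.sum_sub_distrib, Finset.sum_const, Nat.card_Ico]
  have h2 : Ez g b - Ez g a = ∑ j ∈ Ico a b, (ld g j : ℤ) := by
    unfold Ez
    rw [Finset.sum_Ico_eq_sub _ hab]
  rw [h2, nsmul_eq_mul, Nat.cast_sub hab]
  ring

theorem structure_u (hmul : S_PUmul) {g : ℕ → ℕ} (hg : Monotone g) (n : ℕ)
    (hc : ∀ j, 0 < j → j < n → j ≤ g (j - 1)) (b : ℕ) : 2 ≤ b → b ≤ n →
    ∃ u : Polynomial (Polynomial ℤ),
      sB g (Polynomial.C Polynomial.X) (Polynomial.X : Polynomial (Polynomial ℤ)) (range b) ∅ =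
        (1 + Polynomial.X) * (1 + Polynomial.C Polynomial.X * Polynomial.X) * u +
        Polynomial.C (rho g b) * (Polynomial.C (qn Polynomial.X (b - 1)) +
          Polynomial.C (qn Polynomial.X b) * Polynomial.X) ∧
      ∀ k : ℕ, PUz (Ez g b + k + 1 - b) (u.coeff k) := by
  induction b using Nat.strong_induction_on with
  | _ b ih =>
  intro hb hbn
  rcases Nat.eq_or_lt_of_le hb with rfl | hb2
  · have h0 : 1 ≤ g 0 := hc 1 (by omega) (by omega)
    refine ⟨0, ?_, fun k => ?_⟩
    · rw [(sB_two (g := g) (Polynomial.C Polynomial.X)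
        (Polynomial.X : Polynomial (Polynomial ℤ)) h0).1]
      have h1 : rho g 2 = 1 := by unfold rho; simp
      have h2 : qn (Polynomial.X : Polynomial ℤ) (2 - 1) = 1 := by simp [qn]
      have h3 : qn (Polynomial.X : Polynomial ℤ) 2 = 1 + Polynomial.X := by
        simp [qn, Finset.sum_range_succ]
      rw [h1, h2, h3, map_add, map_one]
      ring
    · rw [Polynomial.coeff_zero]
      exact PUz.zero _
  · obtain ⟨c, rfl⟩ : ∃ c, b = c + 1 := ⟨b - 1, by omega⟩
    have hc2 : 2 ≤ c := by omega
    have hlpos : ∀ j, 1 ≤ j → j < n → 1 ≤ ld g j := fun j hj hjn =>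
      (NL_range hg (by omega) (hc j (by omega) hjn)).2
    obtain ⟨hl, hrec⟩ := s_rec hg (Polynomial.C Polynomial.X)
      (Polynomial.X : Polynomial (Polynomial ℤ)) n hc c hc2 (by omega)
    obtain ⟨u, hu, hud⟩ := ih c (by omega) hc2 (by omega)
    have hlc := ld_le g c
    set l := ld g c with hldef
    have hq1 : ∀ k : ℕ, qn (Polynomial.C Polynomial.X : Polynomial (Polynomial ℤ)) k =
      Polynomial.C (qn Polynomial.X k) := fun k =>
      (qn_map (Polynomial.C : Polynomial ℤ →+* Polynomial (Polynomial ℤ)) Polynomial.X k).symm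
    have hEs : Ez g (c + 1) = Ez g c + l := by
      unfold Ez
      rw [Finset.sum_range_succ]
    have hE2 : Ez g 2 = 1 := by
      unfold Ez
      have h0 : ld g 0 = 0 := Nat.le_zero.mp (ld_le g 0)
      have h1 : ld g 1 = 1 := le_antisymm (ld_le g 1) (hlpos 1 le_rfl (by omega))
      rw [Finset.sum_range_succ, Finset.sum_range_succ, Finset.sum_range_zero, h0, h1]
      norm_num
    have hrs : rho g (c + 1) = rho g c * qn Polynomial.X (l - 1) := by
      unfold rho
      rw [Finset.prod_Ico_succ_top hc2]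
    have hrho : PUz (Ez g c - 1 - 2 * ((c : ℤ) - 2)) (rho g c) := by
      have := deg_prod hmul (g := g) 2 c hc2 (fun j hj hj' => hlpos j (by omega) (by omega))
      rw [hE2] at this
      exact this
    obtain ⟨k, hk⟩ : ∃ k, l = k + 1 := ⟨l - 1, by omega⟩
    have hfirst : ∀ i : ℕ, PUz (Ez g (c + 1) + i + 1 - ((c + 1 : ℕ) : ℤ))
        (qn Polynomial.X l * u.coeff i) := fun i =>
      (PUz.mul hmul (PUz.qn l) (hud i)).cast (by rw [hEs]; push_cast; ring)
    have hthird : PUz (Ez g (c + 1) + 0 + 1 - ((c + 1 : ℕ) : ℤ))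
        (Polynomial.X ^ k * qn Polynomial.X (c - l) * rho g c) :=
      (PUz.mul hmul (PUz.mul hmul (PUz.pow k) (PUz.qn (c - l))) hrho).cast (by
        rw [hEs, Nat.cast_sub hlc]
        push_cast
        have : (l : ℤ) = k + 1 := by rw [hk]; push_cast; ring
        linarith)
    by_cases hp : 2 ≤ c - l
    · rw [if_pos hp, prod_q, show c - (c - l) = l by omega] at hrec
      obtain ⟨v, hv, hvd⟩ := ih (c - l) (by omega) hp (by omega)
      set Q : Polynomial ℤ := ∏ j ∈ Ico (c - l) c, qn Polynomial.X (ld g j - 1) with hQ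
      have hrq : rho g c = rho g (c - l) * Q := by
        unfold rho
        rw [hQ, Finset.prod_Ico_consecutive _ hp (by omega)]
      have hQd : PUz (Ez g c - Ez g (c - l) - 2 * ((c : ℤ) - (c - l : ℕ))) Q :=
        deg_prod hmul (g := g) (c - l) c (by omega) (fun j hj hj' => hlpos j (by omega) (by omega))
      refine ⟨Polynomial.C (qn Polynomial.X l) * u +
        Polynomial.C (Polynomial.X ^ l * Q) * (Polynomial.X * v) +
        Polynomial.C (Polynomial.X ^ k * qn Polynomial.X (c - l) * rho g c), ?_, fun i => ?_⟩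
      · rw [hrec, hu, hv, hrs, hq1, hrq, show c + 1 - 1 = c by omega]
        obtain ⟨p, hp'⟩ : ∃ p, c - l = p + 1 := ⟨c - l - 1, by omega⟩
        have ec : c = k + 1 + (p + 1) := by omega
        have hA := idA (Polynomial.X : Polynomial ℤ) k (p + 1)
        have hA2 := idA (Polynomial.X : Polynomial ℤ) k (p + 1 + 1)
        have hP := idP (Polynomial.X : Polynomial ℤ) p
        rw [hp', hk, show k + 1 - 1 = k by omega, show p + 1 - 1 = p by omega]
        rw [show c - 1 = k + (p + 1) by omega, show c + 1 = k + 1 + (p + 1 + 1) by omega,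
          show c = k + (p + 1 + 1) by omega]
        rw [show k + 1 + (p + 1) = k + (p + 1 + 1) by omega] at hA
        rw [show p + 1 + 1 = p + 2 by omega] at hA2
        rw [show p + 1 + 1 = p + 2 by omega] at hA ⊢
        have cA := congrArg (fun z => (Polynomial.C z : Polynomial (Polynomial ℤ))) hA
        have cA2 := congrArg (fun z => (Polynomial.C z : Polynomial (Polynomial ℤ))) hA2
        have cP := congrArg (fun z => (Polynomial.C z : Polynomial (Polynomial ℤ))) hP
        simp only [map_mul, map_add, map_pow] at cA cA2 cP ⊢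
        rw [pow_succ]
        linear_combination (Polynomial.C (rho g (p + 1)) * Polynomial.C Q) * cA +
          (Polynomial.C (rho g (p + 1)) * Polynomial.C Q * Polynomial.X) * cA2 +
          (Polynomial.C (rho g (p + 1)) * Polynomial.C Q * Polynomial.X *
            Polynomial.C Polynomial.X ^ k) * cP
      · rw [Polynomial.coeff_add, Polynomial.coeff_add, Polynomial.coeff_C_mul,
          Polynomial.coeff_C_mul]
        rcases Nat.eq_zero_or_pos i with rfl | hi
        · rw [Polynomial.coeff_X_mul_zero, mul_zero, add_zero, Polynomial.coeff_C_zero]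
          exact (hfirst 0).add (hthird.cast (by push_cast; ring))
        · obtain ⟨j, rfl⟩ : ∃ j, i = j + 1 := ⟨i - 1, by omega⟩
          rw [Polynomial.coeff_X_mul, Polynomial.coeff_C_succ, add_zero]
          refine (hfirst (j + 1)).add ?_
          refine (PUz.mul hmul (PUz.mul hmul (PUz.pow l) hQd) (hvd j)).cast ?_
          rw [hEs, Nat.cast_sub hlc]
          push_cast
          ring
    · rw [if_neg hp] at hrec
      by_cases hp1 : c - l = 1
      · rw [if_pos hp1, prod_q] at hrec
        refine ⟨Polynomial.C (qn Polynomial.X l) * u +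
          Polynomial.C (Polynomial.X ^ k * qn Polynomial.X (c - l) * rho g c), ?_, fun i => ?_⟩
        · rw [hrec, hu, hrs, hq1, show c + 1 - 1 = c by omega]
          have e1 : (∏ j ∈ Ico 2 c, qn (Polynomial.X : Polynomial ℤ) (ld g j - 1)) = rho g c := rfl
          rw [e1]
          have hA := idA (Polynomial.X : Polynomial ℤ) k 1
          have hA2 := idA (Polynomial.X : Polynomial ℤ) k 2
          have h11 : qn (Polynomial.X : Polynomial ℤ) 1 = 1 := by simp [qn]
          have h22 : qn (Polynomial.X : Polynomial ℤ) 2 = 1 + Polynomial.X := by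
            simp [qn, Finset.sum_range_succ]
          rw [h11, mul_one, show k + 1 + 1 = k + 2 by omega] at hA
          rw [h22, show k + 1 + 2 = k + 3 by omega] at hA2
          rw [hp1, hk, h11, show k + 1 - 1 = k by omega, show c - 1 = k + 1 by omega,
            show c + 1 = k + 3 by omega, show c - 2 = k by omega, show c = k + 2 by omega]
          have cA := congrArg (fun z => (Polynomial.C z : Polynomial (Polynomial ℤ))) hA
          have cA2 := congrArg (fun z => (Polynomial.C z : Polynomial (Polynomial ℤ))) hA2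
          simp only [map_mul, map_add, map_pow, map_one, mul_one] at cA cA2 ⊢
          linear_combination (Polynomial.C (rho g (k + 2))) * cA +
            (Polynomial.C (rho g (k + 2)) * Polynomial.X) * cA2
        · rw [Polynomial.coeff_add, Polynomial.coeff_C_mul]
          rcases Nat.eq_zero_or_pos i with rfl | hi
          · rw [Polynomial.coeff_C_zero]
            exact (hfirst 0).add (hthird.cast (by push_cast; ring))
          · obtain ⟨j, rfl⟩ : ∃ j, i = j + 1 := ⟨i - 1, by omega⟩
            rw [Polynomial.coeff_C_succ, add_zero]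
            exact hfirst (j + 1)
      · rw [if_neg hp1, prod_q] at hrec
        refine ⟨Polynomial.C (qn Polynomial.X l) * u, ?_, fun i => ?_⟩
        · rw [hrec, hu, hrs, hq1, show c + 1 - 1 = c by omega]
          have e1 : (∏ j ∈ Ico 2 c, qn (Polynomial.X : Polynomial ℤ) (ld g j - 1)) = rho g c := rfl
          rw [e1]
          have hA := idA (Polynomial.X : Polynomial ℤ) k 1
          have h11 : qn (Polynomial.X : Polynomial ℤ) 1 = 1 := by simp [qn]
          rw [h11, mul_one, show k + 1 + 1 = k + 2 by omega] at hA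
          obtain ⟨r, hr⟩ : ∃ r, k = r + 1 := ⟨k - 1, by omega⟩
          rw [hk, show k + 1 - 1 = k by omega, show c - 1 = k by omega,
            show c + 1 = k + 2 by omega, show c - 2 = r by omega, show c = k + 1 by omega]
          have cA := congrArg (fun z => (Polynomial.C z : Polynomial (Polynomial ℤ))) hA
          simp only [map_mul, map_add, map_pow] at cA ⊢
          rw [hr, pow_succ] at cA
          rw [hr]
          linear_combination (Polynomial.C (rho g (r + 1 + 1)) * Polynomial.X) * cA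
        · rw [Polynomial.coeff_C_mul]
          exact hfirst i

end Pool.Agent.HOOK
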