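import Pool.Agent.Lib.MP_263316_co.HOOK.Def
import Pool.Agent.Lib.MP_263316_co.SWK.Spec

/-!
MP_263316_co, project HOOK: recursion for the sums over stable sets (last vertex).
-/

set_option autoImplicit false

namespace Pool.Agent.HOOK

open Finset Pool.Agent.SWC Pool.Agent.SWK

section
variable {m : ℕ → ℕ} {D T V : Finset ℕ} {t : ℕ}

theorem aL_insert_lt (ht : ∀ u ∈ D, u < t) {v : ℕ} (hv : v ∈ D) :
    aL m (insert t T) v = aL m T v := by
  unfold aL
  rw [Finset.filter_insert, if_neg]
  intro h
  have := ht v hv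
  omega

theorem aL_insert_self : aL m (insert t T) t = aL m T t := by
  unfold aL
  rw [Finset.filter_insert, if_neg (fun h => absurd h.1 (lt_irrefl t))]

theorem ea_insert (ht : ∀ u ∈ D, u < t) (hT : T ⊆ D) :
    ea m (insert t D) T = ea m D T + aL m T t := by
  have htD : t ∉ D := fun h => absurd (ht t h) (lt_irrefl t)
  unfold ea
  rw [Finset.insert_sdiff_of_notMem D (fun h => htD (hT h)), Finset.sum_insert
    (fun h => htD (Finset.mem_sdiff.mp h).1), add_comm]

theorem ea_insert_insert (ht : ∀ u ∈ D, u < t) :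
    ea m (insert t D) (insert t T) = ea m D T := by
  have htD : t ∉ D := fun h => absurd (ht t h) (lt_irrefl t)
  unfold ea
  have h : insert t D \ insert t T = D \ T := by
    ext v
    simp only [Finset.mem_sdiff, Finset.mem_insert, not_or]
    constructor
    · rintro ⟨h1, h2, h3⟩
      exact ⟨h1.resolve_left h2, h3⟩
    · rintro ⟨h1, h2⟩
      exact ⟨Or.inr h1, fun h => htD (h ▸ h1), h2⟩
  rw [h]
  exact Finset.sum_congr rfl fun v hv => aL_insert_lt ht (Finset.mem_sdiff.mp hv).1

theorem insert_sdiff_insert' (ht : ∀ u ∈ D, u < t) : insert t D \ insert t T = D \ T := by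
  have htD : t ∉ D := fun h => absurd (ht t h) (lt_irrefl t)
  ext v
  simp only [Finset.mem_sdiff, Finset.mem_insert, not_or]
  constructor
  · rintro ⟨h1, h2, h3⟩
    exact ⟨h1.resolve_left h2, h3⟩
  · rintro ⟨h1, h2⟩
    exact ⟨Or.inr h1, fun h => htD (h ▸ h1), h2⟩

theorem Pm_insert {R : Type} [CommRing R] {q : R} (ht : ∀ u ∈ V, u < t) (hne : V.Nonempty) :
    Pm m q (insert t V) = qn q (aL m V t) * Pm m q V := by
  have htV : t ∉ V := fun h => absurd (ht t h) (lt_irrefl t)
  unfold Pm
  rw [Finset.prod_insert htV]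
  obtain ⟨w, hw⟩ := hne
  rw [if_pos ⟨w, Finset.mem_insert_of_mem hw, ht w hw⟩, aL_insert_self]
  congr 1
  refine Finset.prod_congr rfl fun v hv => ?_
  rw [aL_insert_lt ht hv]
  by_cases h : ∃ u ∈ V, u < v
  · obtain ⟨u, hu, huv⟩ := h
    rw [if_pos ⟨u, Finset.mem_insert_of_mem hu, huv⟩, if_pos ⟨u, hu, huv⟩]
  · rw [if_neg h, if_neg]
    rintro ⟨u, hu, huv⟩
    rw [Finset.mem_insert] at hu
    rcases hu with rfl | hu
    · have := ht v hv
      omega
    · exact h ⟨u, hu, huv⟩

theorem aL_add (hT : T ⊆ D) (v : ℕ) : aL m (D \ T) v + aL m T v = aL m D v := by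
  unfold aL
  rw [← Finset.card_union_of_disjoint]
  · congr 1
    ext u
    simp only [Finset.mem_union, Finset.mem_filter, Finset.mem_sdiff]
    constructor
    · rintro (⟨⟨h1, _⟩, h2⟩ | ⟨h1, h2⟩)
      · exact ⟨h1, h2⟩
      · exact ⟨hT h1, h2⟩
    · rintro ⟨h1, h2⟩
      by_cases h : u ∈ T
      · exact Or.inr ⟨h, h2⟩
      · exact Or.inl ⟨⟨h1, h⟩, h2⟩
  · rw [Finset.disjoint_left]
    intro u hu hu'
    rw [Finset.mem_filter, Finset.mem_sdiff] at hu
    rw [Finset.mem_filter] at hu'
    exact hu.1.2 hu'.1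

theorem aL_disj (hT : T ⊆ D) : Disjoint T (NL m D t) ↔ aL m T t = 0 := by
  unfold aL NL
  rw [Finset.card_eq_zero, Finset.filter_eq_empty_iff, Finset.disjoint_left]
  constructor
  · intro h u hu hh
    exact h hu (Finset.mem_filter.mpr ⟨hT hu, hh⟩)
  · intro h u hu hh
    exact h hu (Finset.mem_filter.mp hh).2

theorem aL_ind_le (hi : ind m T) : aL m T t ≤ 1 := by
  unfold aL
  rw [Finset.card_le_one]
  intro u hu v hv
  rw [Finset.mem_filter] at hu hv
  rcases lt_trichotomy u v with h | h | h
  · exfalso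
    exact hi u hu.1 v hv.1 ⟨h, by omega⟩
  · exact h
  · exfalso
    exact hi v hv.1 u hu.1 ⟨h, by omega⟩

theorem ind_insert (ht : ∀ u ∈ D, u < t) (hT : T ⊆ D) :
    ind m (insert t T) ↔ ind m T ∧ Disjoint T (NL m D t) := by
  rw [aL_disj hT]
  unfold aL
  rw [Finset.card_eq_zero, Finset.filter_eq_empty_iff]
  unfold ind
  constructor
  · intro h
    exact ⟨fun u hu v hv => h u (Finset.mem_insert_of_mem hu) v (Finset.mem_insert_of_mem hv),
      fun {u} hu => h u (Finset.mem_insert_of_mem hu) t (Finset.mem_insert_self t T)⟩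
  · rintro ⟨h1, h2⟩ u hu v hv ⟨huv, hm⟩
    rw [Finset.mem_insert] at hu hv
    rcases hu with rfl | hu
    · rcases hv with rfl | hv
      · exact absurd huv (lt_irrefl _)
      · have := ht v (hT hv)
        omega
    · rcases hv with rfl | hv
      · exact h2 hu ⟨huv, hm⟩
      · exact h1 u hu v hv ⟨huv, hm⟩

theorem sB_rec1 {R : Type} [CommRing R] (q y : R) (ht : ∀ u ∈ D, u < t) (hD : ¬ ind m D)
    (L : Finset ℕ) :
    sB m q y (insert t D) (insert t L) =
      qn q (aL m D t) * sB m q y D (L ∪ NL m D t) +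
      q * qn q (aL m D t - 1) * (sB m q y D L - sB m q y D (L ∪ NL m D t)) := by
  have htD : t ∉ D := fun h => absurd (ht t h) (lt_irrefl t)
  have h1 : sB m q y (insert t D) (insert t L) =
      ∑ T ∈ D.powerset.filter (fun T => ind m T ∧ Disjoint T L ∧ T ≠ D),
        y ^ T.card * q ^ ea m D T * Pm m q (D \ T) *
        (if Disjoint T (NL m D t) then qn q (aL m D t) else q * qn q (aL m D t - 1)) := by
    unfold sB
    rw [Finset.sum_filter, Finset.sum_powerset_insert htD, Finset.sum_filter]
    have h2 : ∑ T ∈ D.powerset, (if ind m (insert t T) ∧ Disjoint (insert t T) (insert t L) ∧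
        insert t T ≠ insert t D then y ^ (insert t T).card * q ^ ea m (insert t D) (insert t T) *
          Pm m q (insert t D \ insert t T) else 0) = 0 := by
      refine Finset.sum_eq_zero fun T _ => ?_
      rw [if_neg]
      rintro ⟨_, h, _⟩
      exact (Finset.disjoint_left.mp h (Finset.mem_insert_self t T)) (Finset.mem_insert_self t L)
    rw [h2, add_zero]
    refine Finset.sum_congr rfl fun T hT => ?_
    rw [Finset.mem_powerset] at hT
    by_cases hc : ind m T ∧ Disjoint T L ∧ T ≠ D
    · obtain ⟨hi, hd, hne⟩ := hc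
      have hdi : Disjoint T (insert t L) := by
        rw [Finset.disjoint_insert_right]
        exact ⟨fun h => htD (hT h), hd⟩
      have hne' : T ≠ insert t D := fun h => htD (hT (h ▸ Finset.mem_insert_self t D))
      rw [if_pos ⟨hi, hdi, hne'⟩, if_pos ⟨hi, hd, hne⟩, ea_insert ht hT,
        Finset.insert_sdiff_of_notMem D (fun h => htD (hT h)), Pm_insert
        (fun u hu => ht u (Finset.mem_sdiff.mp hu).1) (Finset.sdiff_nonempty.mpr
          (fun h => hne (Finset.Subset.antisymm hT h)))]
      have ha := aL_add (m := m) hT t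
      by_cases hdj : Disjoint T (NL m D t)
      · have h0 := (aL_disj hT).mp hdj
        rw [if_pos hdj, h0, show aL m (D \ T) t = aL m D t by omega]
        ring
      · have h0 : aL m T t = 1 := by
          have h3 := aL_ind_le (t := t) hi
          have h4 : aL m T t ≠ 0 := fun h => hdj ((aL_disj hT).mpr h)
          omega
        rw [if_neg hdj, h0, show aL m (D \ T) t = aL m D t - 1 by omega]
        ring
    · have hc' : ¬ (ind m T ∧ Disjoint T (insert t L) ∧ T ≠ insert t D) := by
        rintro ⟨hi, hd, _⟩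
        apply hc
        rw [Finset.disjoint_insert_right] at hd
        exact ⟨hi, hd.2, fun h => hD (h ▸ hi)⟩
      rw [if_neg hc', if_neg hc]
  have h5 : sB m q y D (L ∪ NL m D t) =
      ∑ T ∈ D.powerset.filter (fun T => ind m T ∧ Disjoint T L ∧ T ≠ D),
        if Disjoint T (NL m D t) then y ^ T.card * q ^ ea m D T * Pm m q (D \ T) else 0 := by
    unfold sB
    rw [← Finset.sum_filter, Finset.filter_filter]
    refine Finset.sum_congr (Finset.filter_congr fun T _ => ?_) fun _ _ => rfl
    rw [Finset.disjoint_union_right]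
    tauto
  rw [h1, h5]
  unfold sB
  rw [mul_sub, Finset.mul_sum, Finset.mul_sum, Finset.mul_sum, ← Finset.sum_sub_distrib,
    ← Finset.sum_add_distrib]
  refine Finset.sum_congr rfl fun T _ => ?_
  split_ifs <;> ring

theorem sB_rec2 {R : Type} [CommRing R] (q y : R) (ht : ∀ u ∈ D, u < t) :
    sB m q y (insert t D) ∅ = sB m q y (insert t D) {t} + y * sB m q y D (NL m D t) := by
  have htD : t ∉ D := fun h => absurd (ht t h) (lt_irrefl t)
  unfold sB
  rw [Finset.sum_filter, Finset.sum_powerset_insert htD, Finset.sum_filter,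
    Finset.sum_powerset_insert htD, Finset.sum_filter, Finset.mul_sum]
  have h1 : ∑ T ∈ D.powerset, (if ind m (insert t T) ∧ Disjoint (insert t T) {t} ∧
      insert t T ≠ insert t D then y ^ (insert t T).card * q ^ ea m (insert t D) (insert t T) *
        Pm m q (insert t D \ insert t T) else 0) = 0 := by
    refine Finset.sum_eq_zero fun T _ => ?_
    rw [if_neg]
    rintro ⟨_, h, _⟩
    exact (Finset.disjoint_left.mp h (Finset.mem_insert_self t T)) (Finset.mem_singleton_self t)
  rw [h1, add_zero]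
  congr 1
  · refine Finset.sum_congr rfl fun T hT => ?_
    rw [Finset.mem_powerset] at hT
    have h2 : Disjoint T {t} := by
      rw [Finset.disjoint_singleton_right]
      exact fun h => htD (hT h)
    have h3 : Disjoint T (∅ : Finset ℕ) := Finset.disjoint_empty_right T
    simp only [h2, h3, true_and]
  · refine Finset.sum_congr rfl fun T hT => ?_
    rw [Finset.mem_powerset] at hT
    have htT : t ∉ T := fun h => htD (hT h)
    have h3 : insert t T = insert t D ↔ T = D := by
      constructor
      · intro h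
        have := congrArg (fun S => S.erase t) h
        simpa [Finset.erase_insert htT, Finset.erase_insert htD] using this
      · intro h; rw [h]
    by_cases hc : ind m T ∧ Disjoint T (NL m D t) ∧ T ≠ D
    · rw [if_pos hc, if_pos ⟨(ind_insert ht hT).mpr ⟨hc.1, hc.2.1⟩,
        Finset.disjoint_empty_right _, fun h => hc.2.2 (h3.mp h)⟩, ea_insert_insert ht,
        insert_sdiff_insert' ht, Finset.card_insert_of_notMem htT]
      ring
    · rw [if_neg hc, if_neg, mul_zero]
      rintro ⟨h4, _, h5⟩
      have h6 := (ind_insert ht hT).mp h4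
      exact hc ⟨h6.1, h6.2, fun h => h5 (h3.mpr h)⟩

/-- the auxiliary combination -/
def sW {R : Type} [CommRing R] (m : ℕ → ℕ) (q y : R) (D L : Finset ℕ) : R :=
  (1 + y) * sB m q y D L - sB m q y D ∅

theorem qn_succ' {R : Type} [CommRing R] (q : R) (n : ℕ) (hn : 1 ≤ n) :
    qn q n = 1 + q * qn q (n - 1) := by
  obtain ⟨k, rfl⟩ : ∃ k, n = k + 1 := ⟨n - 1, by omega⟩
  rw [show k + 1 - 1 = k by omega]
  unfold qn
  rw [Finset.sum_range_succ', Finset.mul_sum, add_comm, pow_zero]
  congr 1
  exact Finset.sum_congr rfl fun i _ => by ring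

theorem sW_step {R : Type} [CommRing R] (q y : R) (ht : ∀ u ∈ D, u < t) (hD : ¬ ind m D)
    (hμ : 1 ≤ aL m D t) (L : Finset ℕ) (hL : L ⊆ NL m D t) :
    sW m q y (insert t D) (insert t L) = q * qn q (aL m D t - 1) * sW m q y D L := by
  have h1 := sB_rec1 q y ht hD L
  have h2 := sB_rec1 q y ht hD ∅
  have h3 := sB_rec2 (m := m) q y ht
  rw [Finset.empty_union, insert_empty_eq] at h2
  rw [Finset.union_eq_right.mpr hL] at h1
  have h4 := qn_succ' q (aL m D t) hμ
  unfold sW
  rw [h1, h3, h2, h4]
  ring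

theorem sB_rec {R : Type} [CommRing R] (q y : R) (ht : ∀ u ∈ D, u < t) (hD : ¬ ind m D)
    (hμ : 1 ≤ aL m D t) :
    sB m q y (insert t D) ∅ = qn q (aL m D t) * sB m q y D ∅ + sW m q y D (NL m D t) := by
  have h2 := sB_rec1 q y ht hD ∅
  have h3 := sB_rec2 (m := m) q y ht
  rw [Finset.empty_union, insert_empty_eq] at h2
  have h4 := qn_succ' q (aL m D t) hμ
  unfold sW
  rw [h3, h2, h4]
  ring

end

end Pool.Agent.HOOK
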